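import Pool.Agent.Q276.BA.Stm

/-!
# Project BA (helper276), second part: the bound without logarithm

With `y = √v e^(iθ)` the function `n (1 - conj y / √t) ^ (n-1) / (1 - √t y) ^ (n+1)` has the Fourier coefficients
`± t ^ (-k/2) q_k(v)` (coefficient of `e^(-ikθ)`, `k ≤ n - 1`). Its modulus squared is
`n² t^(-(n-1)) |B(y)|^(2(n-1)) |1 - √t y|^(-4)` with the automorphism `B(y) = (√t - y) / (1 - √t y)` of the unit disc.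
-/

set_option autoImplicit false

open MeasureTheory Set Filter Topology
open scoped BigOperators ENNReal SchwartzMap

namespace Pool.Agent.Q276.BA

/-- the square of the modulus of the kernel with parameter `t` -/
noncomputable def ker2 (n : ℕ) (t v θ : ℝ) : ℝ :=
  (n : ℝ) ^ 2 * ‖1 - ((Real.sqrt v / Real.sqrt t : ℝ) : ℂ) * Complex.exp (θ * Complex.I)‖ ^ (2 * (n - 1)) /
    ‖1 - ((Real.sqrt v * Real.sqrt t : ℝ) : ℂ) * Complex.exp (θ * Complex.I)‖ ^ (2 * (n + 1))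

/-- Bessel's inequality. With `y = √v e^(iθ)`: `n (1 - conj y / √t)^(n-1) (1 - √t y)^(-(n+1)) =
n ∑_{l<n} (n-1 choose l) (-1)^l (conj y)^l t^(-l/2) ∑_m (n+m choose n) t^(m/2) y^m` (absolutely convergent since
`√(t v) < 1`); the coefficient of `e^(-ikθ)` (terms with `l - m = k`) is `(-1)^n t^(-k/2) QQ n k v`: for `k = -b ≤ 0` this
is the definition of `cc b n l`, for `k = b > 0` use
`n (n-1 choose m+b) (n+m choose n) = (n-b) (n-b-1 choose m) (n+m choose n-b)`. -/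
def S_N1 : Prop := ∀ (n : ℕ) (t v : ℝ) (S : Finset ℤ), 1 ≤ n → 0 < t → t < 1 → 0 ≤ v → v ≤ 1 → (∀ k ∈ S, k ≤ n) →
  ∑ k ∈ S, (QQ n k v) ^ 2 * t ^ (-k) ≤ (1 / (2 * Real.pi)) * ∫ θ in (0 : ℝ)..(2 * Real.pi), ker2 n t v θ

/-- the angular average of `|1 - ρ e^(iθ)|^(-3/2)` is `∑ ((3/4)_j / j!)² ρ^(2j)` (Parseval for `(1 - z)^(-3/4)`), and
`((3/4)_j / j!)² ≤ 1.19 (1/2)_j / j!`, since the quotient has the ratios `1 + (1/16) / ((j+1) (j+1/2))`, with product at most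
`exp((1/16) 4 log 2)` (or estimate the first factors exactly and the rest by a telescoping sum). -/
def S_N2a : Prop := ∀ ρ : ℝ, 0 ≤ ρ → ρ < 1 →
  (1 / (2 * Real.pi)) * ∫ θ in (0 : ℝ)..(2 * Real.pi), ‖1 - (ρ : ℂ) * Complex.exp (θ * Complex.I)‖ ^ (-(3 / 2) : ℝ) ≤
    1.2 * (1 - ρ ^ 2) ^ (-(1 / 2) : ℝ)

/-- Change of variables `y = B(ζ) = (√t - ζ) / (1 - √t ζ)` in the unit disc: `B` is an involution, `|B'(ζ)| =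
(1 - t) / |1 - √t ζ|²`, `1 - |B(ζ)|² = (1 - t) (1 - |ζ|²) / |1 - √t ζ|²`, `|1 - √t B(ζ)| = (1 - t) / |1 - √t ζ|`, and
`|1 - B(ζ) / √t| = |ζ| (1 - t) / (√t |1 - √t ζ|)`. So the left side, which is `(1/π)` times the integral of
`(1 - |y|²)^(3/4) ker2` over the disc, is `n² t^(-(n-1)) (1 - t)^(-5/4)` times `(1/π)` times the integral of
`(1 - |ζ|²)^(3/4) |ζ|^(2(n-1)) |1 - √t ζ|^(-3/2)` over the disc. -/
def S_N2b : Prop := ∀ (n : ℕ) (t : ℝ), 1 ≤ n → 0 < t → t < 1 →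
  ∫ v in (0 : ℝ)..1, (1 - v) ^ (3 / 4 : ℝ) * ((1 / (2 * Real.pi)) * ∫ θ in (0 : ℝ)..(2 * Real.pi), ker2 n t v θ) =
    (n : ℝ) ^ 2 * (1 - t) ^ (-(5 / 4) : ℝ) / t ^ (n - 1) *
      ∫ v in (0 : ℝ)..1, (1 - v) ^ (3 / 4 : ℝ) * v ^ (n - 1) * ((1 / (2 * Real.pi)) *
        ∫ θ in (0 : ℝ)..(2 * Real.pi),
          ‖1 - ((Real.sqrt v * Real.sqrt t : ℝ) : ℂ) * Complex.exp (θ * Complex.I)‖ ^ (-(3 / 2) : ℝ))

/-- From `S_N2a` (with `ρ² = v t ≤ v`) and `∫_0^1 (1 - v)^(1/4) v^(n-1) dv ≤ n^(-5/4)` (Hölder: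
`(∫ v^(n-1))^(3/4) (∫ (1-v) v^(n-1))^(1/4)`). -/
def S_N2 : Prop := ∀ (n : ℕ) (t : ℝ), 1 ≤ n → 0 < t → t < 1 →
  ∫ v in (0 : ℝ)..1, (1 - v) ^ (3 / 4 : ℝ) * ((1 / (2 * Real.pi)) * ∫ θ in (0 : ℝ)..(2 * Real.pi), ker2 n t v θ) ≤
    1.2 * (n : ℝ) ^ (3 / 4 : ℝ) * (1 - t) ^ (-(5 / 4) : ℝ) / t ^ (n - 1)

/-- With `t = 1 - 5 / (8 n)`: for `-n ≤ k ≤ n` one has `1 ≤ t^(-n) t^(-k)`, so by `S_N1`, `S_N2` the integral of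
`(1 - v)^(3/4) ∑_{|k| ≤ n} q_k(v)²` is at most `1.2 n^(3/4) (8 n / 5)^(5/4) t^(-(2n-1)) ≤ 7.55 n²`, and by Cauchy-Schwarz
with `∫_0^1 (1 - v)^(-3/4) dv = 4` the square of the left side is at most `30.2 n² ≤ (5.5 n)²`. -/
def S_N3 : Prop := S_N1 → S_N2 → ∀ n : ℕ, 10000 ≤ n →
  ∫ v in (0 : ℝ)..1, Real.sqrt (∑ k ∈ Finset.Icc (-(n : ℤ)) n, (QQ n k v) ^ 2) ≤ 5.5 * n

/-- For `n ≥ 2`: `eO n ≥ 2.876 (2 n + 1)` (see `S_H4`), and `(2 n + 1) log(2 n + 1) ≤ 33 n` for `n ≤ 5000000`. -/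
def S_N4 : Prop := (∀ n : ℕ, 1 ≤ n → 1 + 5.5 * (n : ℝ) ≤ eO n) ∧
  ∀ n : ℕ, 1 ≤ n → n ≤ 5000000 → (2 * (n : ℝ) + 1) * Real.log (2 * n + 1) ≤ 33 * n

end Pool.Agent.Q276.BA
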