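import Pool.Agent.Q276.BA.D5
import Pool.Agent.Q276.BA.Stm2
import Pool.Agent.Q65.BA.F3
import Pool.Agent.Q124.BA.F2
import Pool.Agent.Q265.BA.G
import Pool.Agent.Q130.BA.H12
import Pool.Agent.Q190.BA.Ker
import Pool.Agent.Q164.BA.B
import Pool.Agent.Q277.BA.C

/-! Project BA: assembly -/

set_option autoImplicit false

open MeasureTheory Set Filter Topology
open scoped BigOperators ENNReal SchwartzMap ContDiff FourierTransform

namespace Pool.Agent.Q276.BA.Fin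

open Pool.Agent.Y282.RB (Tn)

theorem fD : S_D := D4.d Pool.Agent.Q164.BA.b Pool.Agent.Q277.BA.c1 Pool.Agent.Q277.BA.c2

theorem fD2 : S_D2 := D5.d2 fD Pool.Agent.Q277.BA.c3

/-- a modulus which separates the elements of `S` -/
lemma exists_mod (S : Finset ℤ) : ∃ m : ℕ, 1 ≤ m ∧ ∀ k ∈ S, ∀ l ∈ S, (m : ℤ) ∣ k - l → k = l := by
  refine ⟨2 * (∑ k ∈ S, k.natAbs) + 1, by omega, fun k hk l hl h => ?_⟩
  have h1 : k.natAbs ≤ ∑ k ∈ S, k.natAbs := Finset.single_le_sum (fun _ _ => Nat.zero_le _) hk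
  have h2 : l.natAbs ≤ ∑ k ∈ S, k.natAbs := Finset.single_le_sum (fun _ _ => Nat.zero_le _) hl
  have h3 : k - l = 0 := by
    refine Int.eq_zero_of_abs_lt_dvd h ?_
    generalize (∑ k ∈ S, k.natAbs) = w at h1 h2 ⊢
    rw [abs_lt]
    constructor <;> omega
  omega

lemma pr_cls (m : ℕ) (hm : 1 ≤ m) (k l : ℤ) (g : ℂ → ℂ) (hg : Cls l g) (z : ℂ) :
    pr m k g z = if (m : ℤ) ∣ k - l then g z else 0 := by
  have hm0 : (m : ℂ) ≠ 0 := by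
    have : m ≠ 0 := by omega
    exact_mod_cast this
  have h1 : ∀ j : ℕ, Complex.exp (-(2 * (Real.pi : ℂ) * Complex.I * (j * k / m))) *
      g (Complex.exp (2 * (Real.pi : ℂ) * Complex.I * (j / m)) * z) =
      (Complex.exp (-(2 * (Real.pi : ℂ) * Complex.I * (((k - l : ℤ) : ℂ) / m)))) ^ j * g z := by
    intro j
    have hn : ‖Complex.exp (2 * (Real.pi : ℂ) * Complex.I * (j / m))‖ = 1 := by
      have : 2 * (Real.pi : ℂ) * Complex.I * (j / m) = ((2 * Real.pi * (j / m) : ℝ) : ℂ) * Complex.I := by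
        push_cast; ring
      rw [this, Complex.norm_exp_ofReal_mul_I]
    rw [hg _ z hn, ← Complex.exp_int_mul, ← mul_assoc, ← Complex.exp_add, ← Complex.exp_nat_mul]
    congr 2
    push_cast
    ring
  unfold pr
  rw [Finset.sum_congr rfl fun j _ => h1 j, ← Finset.sum_mul]
  split_ifs with hd
  · obtain ⟨c, hc⟩ := hd
    have h2 : Complex.exp (-(2 * (Real.pi : ℂ) * Complex.I * (((k - l : ℤ) : ℂ) / m))) = 1 := by
      rw [hc]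
      have : -(2 * (Real.pi : ℂ) * Complex.I * ((((m : ℤ) * c : ℤ) : ℂ) / m)) =
          ((-c : ℤ) : ℂ) * (2 * Real.pi * Complex.I) := by
        push_cast
        field_simp
      rw [this]
      exact Complex.exp_int_mul_two_pi_mul_I _
    rw [h2]
    simp only [one_pow, Finset.sum_const, Finset.card_range, nsmul_eq_mul, mul_one]
    field_simp
  · rw [Pool.Agent.Q124.BA.sum_zero m hm _ hd]
    ring

lemma pr_sum (m : ℕ) (k : ℤ) (S : Finset ℤ) (f : ℤ → ℂ → ℂ) (z : ℂ) :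
    pr m k (fun z => ∑ l ∈ S, f l z) z = ∑ l ∈ S, pr m k (f l) z := by
  unfold pr
  rw [← Finset.mul_sum]
  congr 1
  rw [Finset.sum_comm]
  refine Finset.sum_congr rfl fun j _ => ?_
  rw [Finset.mul_sum]

lemma pr_family (m : ℕ) (hm : 1 ≤ m) (S : Finset ℤ) (hS : ∀ k ∈ S, ∀ l ∈ S, (m : ℤ) ∣ k - l → k = l)
    (f : ℤ → ℂ → ℂ) (hf : ∀ k ∈ S, Cls k (f k)) (k : ℤ) (hk : k ∈ S) (z : ℂ) :
    pr m k (fun z => ∑ l ∈ S, f l z) z = f k z := by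
  rw [pr_sum, Finset.sum_eq_single k]
  · rw [pr_cls m hm k k (f k) (hf k hk), if_pos (by simp)]
  · intro l hl hlk
    rw [pr_cls m hm k l (f l) (hf l hl), if_neg]
    intro h
    exact hlk (hS k hk l hl h).symm
  · intro h
    exact absurd hk h

lemma Tn_add (n : ℕ) (f g : 𝓢(ℂ, ℂ)) (z : ℂ) : Tn n (f + g : 𝓢(ℂ, ℂ)) z = Tn n f z + Tn n g z := by
  have i : ∀ f : 𝓢(ℂ, ℂ), Integrable fun ξ : ℂ => Pool.Agent.Q277.BA.ee z ξ *
      (Pool.Agent.Q277.BA.mm n ξ * (𝓕 f : 𝓢(ℂ, ℂ)) ξ) := by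
    intro f
    refine (Pool.Agent.Q277.BA.mF_int n f).mono ?_ (Eventually.of_forall fun ξ => ?_)
    · refine AEStronglyMeasurable.mul ?_ (Pool.Agent.Q277.BA.mF_int n f).aestronglyMeasurable
      exact (Pool.Agent.Q277.BA.ee_cont.comp (by fun_prop : Continuous fun ξ : ℂ => (z, ξ))).aestronglyMeasurable
    · rw [norm_mul, Pool.Agent.Q277.BA.ee_norm, one_mul]
  rw [Pool.Agent.Q277.BA.tn_eq, Pool.Agent.Q277.BA.tn_eq, Pool.Agent.Q277.BA.tn_eq, ← integral_add (i f) (i g)]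
  refine integral_congr_ae (Eventually.of_forall fun ξ => ?_)
  have h : (𝓕 (f + g) : 𝓢(ℂ, ℂ)) ξ = (𝓕 f : 𝓢(ℂ, ℂ)) ξ + (𝓕 g : 𝓢(ℂ, ℂ)) ξ := by
    rw [FourierTransform.fourier_add]
    rfl
  simp only
  rw [h]
  ring

lemma Tn_zero (n : ℕ) (z : ℂ) : Tn n ((0 : 𝓢(ℂ, ℂ)) : ℂ → ℂ) z = 0 := by
  have h := Tn_add n 0 0 z
  rw [add_zero] at h
  exact add_eq_left.1 h.symm

lemma Tn_sum (n : ℕ) (S : Finset ℤ) (f : ℤ → 𝓢(ℂ, ℂ)) (z : ℂ) :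
    Tn n ((∑ k ∈ S, f k : 𝓢(ℂ, ℂ)) : ℂ → ℂ) z = ∑ k ∈ S, Tn n (f k) z := by
  classical
  induction S using Finset.induction_on with
  | empty => simpa using Tn_zero n z
  | insert a s ha ih => rw [Finset.sum_insert ha, Finset.sum_insert ha, Tn_add, ih]

lemma coe_sum (S : Finset ℤ) (f : ℤ → 𝓢(ℂ, ℂ)) :
    ((∑ k ∈ S, f k : 𝓢(ℂ, ℂ)) : ℂ → ℂ) = fun z => ∑ k ∈ S, f k z := by
  funext z
  classical
  induction S using Finset.induction_on with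
  | empty => simp
  | insert a s ha ih => rw [Finset.sum_insert ha, Finset.sum_insert ha, ← ih]; rfl

/-- the formula for several frequencies -/
lemma formula (n m : ℕ) (hm : 1 ≤ m) (S : Finset ℤ) (hS : ∀ k ∈ S, ∀ l ∈ S, (m : ℤ) ∣ k - l → k = l)
    (hn : ∀ k ∈ S, k ≤ n) (f : ℤ → 𝓢(ℂ, ℂ)) (hf : ∀ k ∈ S, Cls k (f k)) (z : ℂ) (hz : z ≠ 0) :
    Tn n ((∑ k ∈ S, f k : 𝓢(ℂ, ℂ)) : ℂ → ℂ) z = (starRingEnd ℂ z / z) ^ n *
      AS m S (QQ n) ((∑ k ∈ S, f k : 𝓢(ℂ, ℂ)) : ℂ → ℂ) z := by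
  rw [Tn_sum, coe_sum]
  unfold AS
  rw [Finset.sum_congr rfl fun k hk => fD2 n k (hn k hk) (f k) (hf k hk) z hz, ← Finset.mul_sum]
  congr 1
  unfold AA
  rw [Finset.sum_add_distrib]
  congr 1
  refine Finset.sum_congr rfl fun k hk => ?_
  refine intervalIntegral.integral_congr fun v _ => ?_
  rw [pr_family m hm S hS (fun k => ⇑(f k)) hf k hk]

lemma bm (f : 𝓢(ℂ, ℂ)) : BM f := by
  refine ⟨f.continuous.measurable, ?_⟩
  exact ⟨‖f.toBoundedContinuousFunction‖, fun z => f.toBoundedContinuousFunction.norm_coe_le_norm z⟩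

theorem op (hE : S_E) (hF1 : S_F1) (n m : ℕ) (hm : 1 ≤ m) (S : Finset ℤ)
    (hS : ∀ k ∈ S, ∀ l ∈ S, (m : ℤ) ∣ k - l → k = l) (V : ℝ)
    (hV : ∫ v in (0 : ℝ)..1, Real.sqrt (∑ k ∈ S, (QQ n k v) ^ 2) ≤ V) : Op (AS m S (QQ n)) (1 + V) := by
  have hc : ∀ k ∈ S, Continuous (QQ n k) := fun k _ => Pool.Agent.Q130.BA.H12.QQ_cont n k
  obtain ⟨h1, h2, h3, h4⟩ := Pool.Agent.Q65.BA.f3 m S (QQ n) hc
  refine ⟨h1, h2, h3, ?_, ?_, h4⟩
  · exact hF1 hE m S (QQ n) hm hS hc fun k _ lam h0 _ => Pool.Agent.Q190.BA.a5 _ _ lam h0.le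
  · exact Pool.Agent.Q124.BA.f2 m S (QQ n) V hm hS hc hV

theorem main (hE : S_E) (hF1 : S_F1) (n : ℕ) (S : Finset ℤ) (hn : ∀ k ∈ S, k ≤ n) (f : ℤ → 𝓢(ℂ, ℂ))
    (hf : ∀ k ∈ S, Cls k (f k)) (V : ℝ)
    (hV : ∫ v in (0 : ℝ)..1, Real.sqrt (∑ k ∈ S, (QQ n k v) ^ 2) ≤ V) (p : ℝ) (hp : 2 ≤ p) :
    eLpNorm (Tn n ((∑ k ∈ S, f k : 𝓢(ℂ, ℂ)) : ℂ → ℂ)) (ENNReal.ofReal p) (volume : Measure ℂ) ≤
      ENNReal.ofReal ((1 + V) ^ (1 - 2 / p)) *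
        eLpNorm ((∑ k ∈ S, f k : 𝓢(ℂ, ℂ)) : ℂ → ℂ) (ENNReal.ofReal p) (volume : Measure ℂ) := by
  obtain ⟨m, hm, hS⟩ := exists_mod S
  have hV0 : 0 ≤ V := le_trans (intervalIntegral.integral_nonneg zero_le_one fun v _ => Real.sqrt_nonneg _) hV
  have hop := op hE hF1 n m hm S hS V hV
  refine le_trans (le_of_eq ?_) (Pool.Agent.Q265.BA.g _ (1 + V) (by linarith) hop p hp _ (bm _))
  refine eLpNorm_congr_norm_ae ?_
  have h0 : ∀ᵐ z : ℂ, z ≠ 0 := by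
    rw [ae_iff]
    simp
  filter_upwards [h0] with z hz
  rw [formula n m hm S hS hn f hf z hz, norm_mul, norm_pow, D5.norm_conj_div hz, one_pow, one_mul]

end Pool.Agent.Q276.BA.Fin
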