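import Pool.Agent.Q276.BA.Sup
import Pool.Agent.Q65.BA.N1
import Pool.Agent.Q181.BA.N2a
import Pool.Agent.Q164.BA.N2b
import Pool.Agent.Q214.BA.N2
import Pool.Agent.Q214.BA.N34
import Pool.Agent.Q121.BA.N5
import Pool.Agent.Q64.BA.N67
import Pool.Agent.Q129.BA.J

/-! Project BA: the statements without hypotheses -/

set_option autoImplicit false

open MeasureTheory Set Filter Topology
open scoped BigOperators ENNReal SchwartzMap ContDiff FourierTransform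

namespace Pool.Agent.Q276.BA.All

open Pool.Agent.Y282.RB (Tn Cn)
open Pool.Agent.Q276.BA.Main (Freq)

lemma N1 : S_N1 := Pool.Agent.Q65.BA.n1
lemma N2 : S_N2 := Pool.Agent.Q214.BA.n2 Pool.Agent.Q181.BA.n2a Pool.Agent.Q164.BA.n2b
lemma N3 : S_N3 := Pool.Agent.Q214.BA.n3
lemma N4 : S_N4 := Pool.Agent.Q214.BA.n4
lemma N5 : S_N5 := Pool.Agent.Q121.BA.N5.n5
lemma N6 : S_N6 := Pool.Agent.Q64.BA.n6
lemma N7 : S_N7 := Pool.Agent.Q64.BA.n7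

theorem band_version (n : ℕ) (hn : 1 ≤ n) (p : ℝ) (hp : 2 ≤ p)
    (f : 𝓢(ℂ, ℂ)) (hf : Freq (Finset.Icc (-(n : ℤ)) n) f) :
    eLpNorm (Tn n f) (ENNReal.ofReal p) (volume : Measure ℂ) ≤
      ENNReal.ofReal ((1 + 11 / 2 * n) ^ (1 - 2 / p)) * eLpNorm f (ENNReal.ofReal p) (volume : Measure ℂ) :=
  Main.band_version N1 N2 N3 n hn p hp f hf

theorem band_K (n : ℕ) (hn : 1 ≤ n) (p : ℝ) (hp : 2 ≤ p)
    (f : 𝓢(ℂ, ℂ)) (hf : Freq (Finset.Icc (-(n : ℤ)) n) f) :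
    eLpNorm (Tn n f) (ENNReal.ofReal p) (volume : Measure ℂ) ≤
      ENNReal.ofReal (Cn p n) * eLpNorm f (ENNReal.ofReal p) (volume : Measure ℂ) :=
  Main.band_K N1 N2 N3 N4 n hn p hp f hf

theorem band_sup (n : ℕ) (hn : 1 ≤ n) (f : 𝓢(ℂ, ℂ)) (hf : Freq (Finset.Icc (-(n : ℤ)) n) f) (B : ℝ)
    (hB : ∀ z, ‖f z‖ ≤ B) (z : ℂ) : ‖Tn n f z‖ ≤ (1 + 11 / 2 * n) * B := by
  have e : (11 / 2 * (n : ℝ)) = 5.5 * n := by norm_num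
  rw [e]
  exact Sup.sup n _ (fun k hk => (Finset.mem_Icc.1 hk).2) _ (Main.band N1 N2 N3 n hn) f hf B hB z

theorem wide (n D : ℕ) (hn : 1 ≤ n) (hD : n ≤ D) (p : ℝ) (hp : 2 ≤ p)
    (f : 𝓢(ℂ, ℂ)) (hf : Freq (Finset.Icc (-(D : ℤ)) n) f) :
    eLpNorm (Tn n f) (ENNReal.ofReal p) (volume : Measure ℂ) ≤
      ENNReal.ofReal ((1 + 4 * (n : ℝ) ^ (3 / 8 : ℝ) * ((n : ℝ) + D) ^ (5 / 8 : ℝ)) ^ (1 - 2 / p)) *
        eLpNorm f (ENNReal.ofReal p) (volume : Measure ℂ) :=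
  Main.wide N1 N2 N3 N5 n D hn hD p hp f hf

theorem wide_K (n D : ℕ) (hn : 1 ≤ n)
    (hD : n ≤ D) (p : ℝ) (hp : 3 + 6 * (1 + (D : ℝ) / n) ^ (5 / 8 : ℝ) ≤ p)
    (f : 𝓢(ℂ, ℂ)) (hf : Freq (Finset.Icc (-(D : ℤ)) n) f) :
    eLpNorm (Tn n f) (ENNReal.ofReal p) (volume : Measure ℂ) ≤
      ENNReal.ofReal (Cn p n) * eLpNorm f (ENNReal.ofReal p) (volume : Measure ℂ) :=
  Main.wide_K N1 N2 N3 N5 N6 N7 n D hn hD p hp f hf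

lemma J : S_J := Pool.Agent.Q129.BA.j

theorem single (n : ℕ) (k : ℤ) (hk : k ≤ n) (p : ℝ) (hp : 2 ≤ p) (f : 𝓢(ℂ, ℂ))
    (hf : Freq {k} f) : eLpNorm (Tn n f) (ENNReal.ofReal p) (volume : Measure ℂ) ≤
      ENNReal.ofReal ((1 + 2.11 * ((n - k.toNat : ℕ) : ℝ) ^ (3 / 4 : ℝ)) ^ (1 - 2 / p)) *
        eLpNorm f (ENNReal.ofReal p) (volume : Measure ℂ) :=
  Single.single J n k hk p hp f hf

theorem single_sup (n : ℕ) (k : ℤ) (hk : k ≤ n) (f : 𝓢(ℂ, ℂ)) (hf : Freq {k} f) (B : ℝ)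
    (hB : ∀ z, ‖f z‖ ≤ B) (z : ℂ) : ‖Tn n f z‖ ≤ (1 + 2.11 * ((n - k.toNat : ℕ) : ℝ) ^ (3 / 4 : ℝ)) * B := by
  refine Sup.sup n {k} (by simpa using hk) _ ?_ f hf B hB z
  have e : ∀ v : ℝ, Real.sqrt (∑ k ∈ ({k} : Finset ℤ), (QQ n k v) ^ 2) = |qq k.natAbs (n - k.toNat) v| := by
    intro v
    rw [Finset.sum_singleton, Real.sqrt_sq_eq_abs]
    rfl
  simp only [e]
  exact Single.v J _ _

end Pool.Agent.Q276.BA.All
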