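import Pool.Agent.Q276.BA.Proj

/-! Project BA: the band `[-n, n]` and finitely many other frequencies -/

set_option autoImplicit false

open MeasureTheory Set Filter Topology
open scoped BigOperators ENNReal SchwartzMap ContDiff FourierTransform

namespace Pool.Agent.Q276.BA.Any

open Pool.Agent.Y282.RB (Tn Cn)
open Pool.Agent.Q276.BA.Main (Freq)
open Pool.Agent.Q276.BA.Proj

lemma cont_sum (T : Finset ℤ) (G : ℤ → ℂ → ℂ) (hG : ∀ k, Continuous (G k)) : Continuous (∑ k ∈ T, G k) := by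
  have e : (∑ k ∈ T, G k) = fun z => ∑ k ∈ T, G k z := by
    funext z
    rw [Finset.sum_apply]
  rw [e]
  exact continuous_finsetSum _ fun k _ => hG k

/-- centred version -/
lemma total0 (n : ℕ) (hn : 1 ≤ n) (U : Finset ℤ) (hU : Finset.Icc (-(n : ℤ)) n ⊆ U) (g : ℤ → 𝓢(ℂ, ℂ))
    (hg : ∀ k ∈ U, Cls k (g k)) (p : ℝ) (hp : 2 ≤ p) (c : ℤ → ℝ≥0∞)
    (hc : ∀ k ∈ U \ Finset.Icc (-(n : ℤ)) n, ∀ f : 𝓢(ℂ, ℂ), Cls k f →
      eLpNorm (Tn n f) (ENNReal.ofReal p) (volume : Measure ℂ) ≤ c k * eLpNorm f (ENNReal.ofReal p) (volume : Measure ℂ)) :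
    eLpNorm (Tn n ((∑ k ∈ U, g k : 𝓢(ℂ, ℂ)) : ℂ → ℂ)) (ENNReal.ofReal p) (volume : Measure ℂ) ≤
      (ENNReal.ofReal ((1 + 11 / 2 * n) ^ (1 - 2 / p)) * (1 + (U \ Finset.Icc (-(n : ℤ)) n).card) +
        ∑ k ∈ U \ Finset.Icc (-(n : ℤ)) n, c k) *
        eLpNorm ((∑ k ∈ U, g k : 𝓢(ℂ, ℂ)) : ℂ → ℂ) (ENNReal.ofReal p) (volume : Measure ℂ) := by
  set T := U \ Finset.Icc (-(n : ℤ)) n with hT
  set F0 : 𝓢(ℂ, ℂ) := ∑ k ∈ Finset.Icc (-(n : ℤ)) n, g k with hF0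
  set F : 𝓢(ℂ, ℂ) := ∑ k ∈ U, g k with hF
  set P := ENNReal.ofReal p with hP
  have hP1 : 1 ≤ P := by
    rw [hP, ← ENNReal.ofReal_one]
    exact ENNReal.ofReal_le_ofReal (by linarith)
  have hTU : T ⊆ U := Finset.sdiff_subset
  have e1 : F = (∑ k ∈ T, g k) + F0 := (Finset.sum_sdiff hU).symm
  have hk : ∀ k ∈ T, eLpNorm (g k) P (volume : Measure ℂ) ≤ eLpNorm F P (volume : Measure ℂ) :=
    fun k hk => comp_norm U g hg k (hTU hk) P hP1
  -- the norm of the band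
  have h0 : eLpNorm F0 P (volume : Measure ℂ) ≤ (1 + (T.card : ℝ≥0∞)) * eLpNorm F P (volume : Measure ℂ) := by
    have e2 : (F0 : ℂ → ℂ) = (F : ℂ → ℂ) - ∑ k ∈ T, (g k : ℂ → ℂ) := by
      funext z
      have h1 : F z = (∑ k ∈ T, g k : 𝓢(ℂ, ℂ)) z + F0 z := by rw [e1]; rfl
      have h2 : (∑ k ∈ T, g k : 𝓢(ℂ, ℂ)) z = ∑ k ∈ T, g k z := congrFun (Fin.coe_sum T g) z
      rw [Pi.sub_apply, Finset.sum_apply, h1, h2]
      ring
    rw [e2]
    calc eLpNorm ((F : ℂ → ℂ) - ∑ k ∈ T, (g k : ℂ → ℂ)) P (volume : Measure ℂ)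
        ≤ eLpNorm F P (volume : Measure ℂ) + eLpNorm (∑ k ∈ T, (g k : ℂ → ℂ)) P (volume : Measure ℂ) := by
          refine eLpNorm_sub_le F.continuous.aestronglyMeasurable ?_ hP1
          exact (cont_sum T (fun k => ⇑(g k)) fun k => (g k).continuous).aestronglyMeasurable
      _ ≤ eLpNorm F P (volume : Measure ℂ) + ∑ k ∈ T, eLpNorm (g k) P (volume : Measure ℂ) := by
          gcongr
          exact eLpNorm_sum_le (fun k _ => (g k).continuous.aestronglyMeasurable) hP1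
      _ ≤ eLpNorm F P (volume : Measure ℂ) + ∑ k ∈ T, eLpNorm F P (volume : Measure ℂ) := by
          gcongr with k hk'
          exact hk k hk'
      _ = (1 + (T.card : ℝ≥0∞)) * eLpNorm F P (volume : Measure ℂ) := by
          rw [Finset.sum_const, nsmul_eq_mul, add_mul, one_mul]
  have hfr : Freq (Finset.Icc (-(n : ℤ)) n) F0 := by
    refine ⟨0, g, rfl, fun k hk a z ha => ?_⟩
    rw [zero_add, zero_add]
    exact hg k (hU hk) a z ha
  have h1 := All.band_version n hn p hp F0 hfr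
  have e3 : Tn n (F : ℂ → ℂ) = Tn n (F0 : ℂ → ℂ) + ∑ k ∈ T, Tn n (g k : ℂ → ℂ) := by
    funext z
    rw [Pi.add_apply, Finset.sum_apply, ← Fin.Tn_sum, e1, Fin.Tn_add, add_comm]
  rw [e3]
  calc eLpNorm (Tn n (F0 : ℂ → ℂ) + ∑ k ∈ T, Tn n (g k : ℂ → ℂ)) P (volume : Measure ℂ)
      ≤ eLpNorm (Tn n (F0 : ℂ → ℂ)) P (volume : Measure ℂ) +
        eLpNorm (∑ k ∈ T, Tn n (g k : ℂ → ℂ)) P (volume : Measure ℂ) := by
        refine eLpNorm_add_le (D3.cont_Tn n _).aestronglyMeasurable ?_ hP1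
        exact (cont_sum T (fun k => Tn n (g k : ℂ → ℂ)) fun k => D3.cont_Tn n _).aestronglyMeasurable
    _ ≤ ENNReal.ofReal ((1 + 11 / 2 * n) ^ (1 - 2 / p)) * ((1 + (T.card : ℝ≥0∞)) * eLpNorm F P (volume : Measure ℂ)) +
        ∑ k ∈ T, c k * eLpNorm F P (volume : Measure ℂ) := by
        gcongr
        · exact h1.trans (by gcongr)
        · refine (eLpNorm_sum_le (fun k _ => (D3.cont_Tn n _).aestronglyMeasurable) hP1).trans ?_
          gcongr with k hk'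
          refine (hc k hk' (g k) (hg k (hTU hk'))).trans ?_
          gcongr
          exact hk k hk'
    _ = _ := by
        rw [← Finset.sum_mul, ← mul_assoc, ← add_mul]

/-- with any centre -/
lemma total (n : ℕ) (hn : 1 ≤ n) (U : Finset ℤ) (hU : Finset.Icc (-(n : ℤ)) n ⊆ U) (f : 𝓢(ℂ, ℂ))
    (hf : Freq U f) (p : ℝ) (hp : 2 ≤ p) (c : ℤ → ℝ≥0∞)
    (hc : ∀ k ∈ U \ Finset.Icc (-(n : ℤ)) n, ∀ f : 𝓢(ℂ, ℂ), Cls k f →
      eLpNorm (Tn n f) (ENNReal.ofReal p) (volume : Measure ℂ) ≤ c k * eLpNorm f (ENNReal.ofReal p) (volume : Measure ℂ)) :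
    eLpNorm (Tn n f) (ENNReal.ofReal p) (volume : Measure ℂ) ≤
      (ENNReal.ofReal ((1 + 11 / 2 * n) ^ (1 - 2 / p)) * (1 + (U \ Finset.Icc (-(n : ℤ)) n).card) +
        ∑ k ∈ U \ Finset.Icc (-(n : ℤ)) n, c k) * eLpNorm f (ENNReal.ofReal p) (volume : Measure ℂ) := by
  obtain ⟨a, g, rfl, hg⟩ := hf
  have h1 := total0 n hn U hU (fun k => Trans.tr (-a) (g k)) (fun k hk b z hb => by
    rw [Trans.tr_apply, Trans.tr_apply, sub_neg_eq_add, sub_neg_eq_add, add_comm, hg k hk b z hb, add_comm a z])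
    p hp c hc
  have e1 : (∑ k ∈ U, g k : 𝓢(ℂ, ℂ)) = Trans.tr a (∑ k ∈ U, Trans.tr (-a) (g k) : 𝓢(ℂ, ℂ)) := by
    ext z
    rw [Trans.tr_apply, Fin.coe_sum, Fin.coe_sum]
    refine Finset.sum_congr rfl fun k _ => ?_
    rw [Trans.tr_apply]
    congr 1
    ring
  rw [e1]
  have e2 : Tn n (Trans.tr a (∑ k ∈ U, Trans.tr (-a) (g k) : 𝓢(ℂ, ℂ)) : ℂ → ℂ) =
      fun z => Tn n ((∑ k ∈ U, Trans.tr (-a) (g k) : 𝓢(ℂ, ℂ)) : ℂ → ℂ) (z - a) := funext fun z => Trans.Tn_tr n a _ z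
  have e3 : (Trans.tr a (∑ k ∈ U, Trans.tr (-a) (g k) : 𝓢(ℂ, ℂ)) : ℂ → ℂ) =
      fun z => ((∑ k ∈ U, Trans.tr (-a) (g k) : 𝓢(ℂ, ℂ)) : ℂ → ℂ) (z - a) := rfl
  rw [e2, e3, Trans.eLp_shift _ (D3.cont_Tn n _), Trans.eLp_shift _ (SchwartzMap.continuous _)]
  exact h1

lemma u_nonneg {p : ℝ} (hp : 2 ≤ p) : 0 ≤ 1 - 2 / p := by
  have : 2 / p ≤ 1 := (div_le_one (by linarith)).2 hp
  linarith

lemma eO_mono {a b : ℕ} (h : a ≤ b) : eO a ≤ eO b := by
  unfold eO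
  refine Real.exp_le_exp.2 (mul_le_mul_of_nonneg_left ?_ (by norm_num))
  exact Finset.sum_le_sum_of_subset_of_nonneg (Finset.range_mono h) fun i _ _ => by positivity

lemma eO_pos (n : ℕ) : 0 < eO n := Real.exp_pos _

/-- single frequencies `≠ 2 n` outside `[-n, n]` -/
lemma one (n : ℕ) (hn : 1 ≤ n) (k : ℤ) (h2 : k ≠ 2 * n) (p : ℝ) (hp : 2 ≤ p)
    (f : 𝓢(ℂ, ℂ)) (hf : Cls k f) : eLpNorm (Tn n f) (ENNReal.ofReal p) (volume : Measure ℂ) ≤
      ENNReal.ofReal ((eO n) ^ (1 - 2 / p)) * eLpNorm f (ENNReal.ofReal p) (volume : Measure ℂ) := by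
  have hu := u_nonneg hp
  have hn' : (1 : ℝ) ≤ n := by exact_mod_cast hn
  rcases lt_or_ge (n : ℤ) k with h | h
  · have h1 := (Q78.BB.Fin.modes n hn k h h2 f hf).1 p hp (-1)
    have hU : {z : ℂ | (-1 : ℝ) < ‖z‖} = Set.univ := by
      refine Set.eq_univ_of_forall fun z => ?_
      show (-1 : ℝ) < ‖z‖
      linarith [norm_nonneg z]
    rw [hU, Measure.restrict_univ] at h1
    refine h1.trans ?_
    gcongr
    · exact (eO_pos _).le
    · exact eO_mono (min_le_left _ _)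
  · have hfr : Freq {k} f := by
      refine ⟨0, fun _ => f, by simp, fun l hl a z ha => ?_⟩
      rw [Finset.mem_singleton] at hl
      subst hl
      rw [zero_add, zero_add]
      exact hf a z ha
    refine (All.single n k h p hp f hfr).trans ?_
    gcongr
    have h1 : ((n - k.toNat : ℕ) : ℝ) ^ (3 / 4 : ℝ) ≤ n := by
      calc ((n - k.toNat : ℕ) : ℝ) ^ (3 / 4 : ℝ) ≤ (n : ℝ) ^ (3 / 4 : ℝ) := by
            refine Real.rpow_le_rpow (Nat.cast_nonneg _) ?_ (by norm_num)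
            exact_mod_cast Nat.sub_le _ _
        _ ≤ (n : ℝ) ^ (1 : ℝ) := Real.rpow_le_rpow_of_exponent_le hn' (by norm_num)
        _ = n := Real.rpow_one _
    have h2 := All.N4.1 n hn
    linarith

/-- the constant of the band -/
lemma band_le (n : ℕ) (hn : 1 ≤ n) (p : ℝ) (hp : 2 ≤ p) :
    ENNReal.ofReal ((1 + 11 / 2 * n) ^ (1 - 2 / p)) ≤ ENNReal.ofReal ((eO n) ^ (1 - 2 / p)) := by
  have hu := u_nonneg hp
  have h2 := All.N4.1 n hn
  gcongr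
  have e : (11 / 2 * (n : ℝ)) = 5.5 * n := by norm_num
  rw [e]
  exact h2

/-- the band and finitely many frequencies `≠ 2 n` -/
theorem some (n : ℕ) (hn : 1 ≤ n) (S : Finset ℤ) (hS : (2 * n : ℤ) ∉ S) (p : ℝ) (hp : 2 ≤ p) (f : 𝓢(ℂ, ℂ))
    (hf : Freq (Finset.Icc (-(n : ℤ)) n ∪ S) f) : eLpNorm (Tn n f) (ENNReal.ofReal p) (volume : Measure ℂ) ≤
      ENNReal.ofReal ((2 * S.card + 1) * (eO n) ^ (1 - 2 / p)) *
        eLpNorm f (ENNReal.ofReal p) (volume : Measure ℂ) := by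
  set A := ENNReal.ofReal ((eO n) ^ (1 - 2 / p)) with hA
  set U := Finset.Icc (-(n : ℤ)) n ∪ S with hU
  have hT : U \ Finset.Icc (-(n : ℤ)) n ⊆ S := by
    intro k hk
    rw [Finset.mem_sdiff, hU, Finset.mem_union] at hk
    tauto
  have h1 := total n hn U Finset.subset_union_left f hf p hp (fun _ => A) (fun k hk f hf => by
    refine one n hn k ?_ p hp f hf
    rintro rfl
    exact hS (hT hk))
  refine h1.trans ?_
  gcongr
  have hcard : ((U \ Finset.Icc (-(n : ℤ)) n).card : ℝ≥0∞) ≤ (S.card : ℝ≥0∞) := by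
    exact_mod_cast Finset.card_le_card hT
  rw [Finset.sum_const, nsmul_eq_mul, ENNReal.ofReal_mul (by positivity), ← hA]
  have e : ENNReal.ofReal (2 * (S.card : ℝ) + 1) = 2 * (S.card : ℝ≥0∞) + 1 := by
    rw [ENNReal.ofReal_add (by positivity) zero_le_one, ENNReal.ofReal_mul (by norm_num), ENNReal.ofReal_natCast]
    norm_num
  rw [e]
  calc ENNReal.ofReal ((1 + 11 / 2 * n) ^ (1 - 2 / p)) * (1 + ((U \ Finset.Icc (-(n : ℤ)) n).card : ℝ≥0∞)) +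
      ((U \ Finset.Icc (-(n : ℤ)) n).card : ℝ≥0∞) * A ≤ A * (1 + (S.card : ℝ≥0∞)) + (S.card : ℝ≥0∞) * A := by
        gcongr
        exact band_le n hn p hp
    _ = (2 * (S.card : ℝ≥0∞) + 1) * A := by ring

/-- the constants of the questions -/
lemma K_ge (n : ℕ) (hn : 1 ≤ n) (p : ℝ) (hp : 2 ≤ p) : (p - 1) * (eO n) ^ (1 - 2 / p) ≤ 7.3891 * Cn p n := by
  obtain ⟨m, rfl⟩ : ∃ m, n = m + 1 := ⟨n - 1, by omega⟩
  have hu := u_nonneg hp
  have hu1 : 1 - 2 / p ≤ 1 := by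
    have : 0 ≤ 2 / p := by positivity
    linarith
  have h1 := Pool.Agent.Q64.BA.prod_ge m p hp
  have h4 : ((((0 : ℕ) : ℝ) + 1 - 1 / p) / (((0 : ℕ) : ℝ) + 1 / p)) = p - 1 := by
    push_cast
    field_simp
    ring
  have h2 : (eO (m + 1)) ^ (1 - 2 / p) ≤ 7.3891 * (Pool.Agent.Q64.BA.eR m) ^ (1 - 2 / p) := by
    have hR : 0 ≤ Pool.Agent.Q64.BA.eR m := (Real.exp_pos _).le
    rw [Pool.Agent.Q64.BA.eO_eR, Real.mul_rpow hR (Real.exp_pos _).le, mul_comm]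
    refine mul_le_mul_of_nonneg_right ?_ (Real.rpow_nonneg hR _)
    calc (Real.exp 2) ^ (1 - 2 / p) ≤ (Real.exp 2) ^ (1 : ℝ) :=
          Real.rpow_le_rpow_of_exponent_le (Real.one_le_exp (by norm_num)) hu1
      _ = Real.exp 2 := Real.rpow_one _
      _ ≤ 7.3891 := Pool.Agent.Q64.BA.exp_two_le
  unfold Pool.Agent.Y282.RB.Cn
  rw [Finset.prod_range_succ', h4]
  have hp1 : 0 ≤ p - 1 := by linarith
  calc (p - 1) * (eO (m + 1)) ^ (1 - 2 / p) ≤ (p - 1) * (7.3891 * (Pool.Agent.Q64.BA.eR m) ^ (1 - 2 / p)) :=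
        mul_le_mul_of_nonneg_left h2 hp1
    _ ≤ (p - 1) * (7.3891 * ∏ j ∈ Finset.range m, ((((j + 1 : ℕ) : ℝ) + 1 - 1 / p) / (((j + 1 : ℕ) : ℝ) + 1 / p))) := by
        gcongr
    _ = _ := by ring

theorem some_K (n : ℕ) (hn : 1 ≤ n) (S : Finset ℤ) (hS : (2 * n : ℤ) ∉ S) (p : ℝ) (hp : 15 * (S.card : ℝ) + 9 ≤ p)
    (f : 𝓢(ℂ, ℂ)) (hf : Freq (Finset.Icc (-(n : ℤ)) n ∪ S) f) :
    eLpNorm (Tn n f) (ENNReal.ofReal p) (volume : Measure ℂ) ≤
      ENNReal.ofReal (Cn p n) * eLpNorm f (ENNReal.ofReal p) (volume : Measure ℂ) := by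
  have hm : (0 : ℝ) ≤ (S.card : ℝ) := Nat.cast_nonneg _
  have hp2 : 2 ≤ p := by linarith
  refine (some n hn S hS p hp2 f hf).trans ?_
  gcongr
  have h1 := K_ge n hn p hp2
  have h2 : 0 ≤ (eO n) ^ (1 - 2 / p) := Real.rpow_nonneg (eO_pos n).le _
  have h3 : (2 * (S.card : ℝ) + 1) * 7.3891 ≤ p - 1 := by linarith
  have h4 : (2 * (S.card : ℝ) + 1) * 7.3891 * (eO n) ^ (1 - 2 / p) ≤ (p - 1) * (eO n) ^ (1 - 2 / p) :=
    mul_le_mul_of_nonneg_right h3 h2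
  nlinarith

/-- all frequencies, large `p` -/
theorem all_large (n : ℕ) (hn : 1 ≤ n) (S : Finset ℤ) (p : ℝ) (hp : 4000 * (n : ℝ) ^ 5 ≤ p) (f : 𝓢(ℂ, ℂ))
    (hf : Freq (Finset.Icc (-(n : ℤ)) n ∪ S) f) : eLpNorm (Tn n f) (ENNReal.ofReal p) (volume : Measure ℂ) ≤
      ENNReal.ofReal ((1 + 15 * (S.card + 1) / (p - 1)) * Cn p n) *
        eLpNorm f (ENNReal.ofReal p) (volume : Measure ℂ) := by
  have hn' : (1 : ℝ) ≤ n := by exact_mod_cast hn
  have hn5 : (1 : ℝ) ≤ (n : ℝ) ^ 5 := one_le_pow₀ hn'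
  have hp2 : 2 ≤ p := by linarith
  have hK0 : 0 ≤ Cn p n := by
    unfold Pool.Agent.Y282.RB.Cn
    refine Finset.prod_nonneg fun j _ => ?_
    have h1 : (1 : ℝ) / p ≤ 1 := by
      rw [div_le_one (by linarith)]; linarith
    have h2 : (0 : ℝ) ≤ 1 / p := by positivity
    have h3 : (0 : ℝ) ≤ (j : ℝ) := Nat.cast_nonneg j
    apply div_nonneg <;> linarith
  set A := ENNReal.ofReal ((eO n) ^ (1 - 2 / p)) with hA
  set U := Finset.Icc (-(n : ℤ)) n ∪ S with hU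
  set T := U \ Finset.Icc (-(n : ℤ)) n with hTd
  have hT : T ⊆ S := by
    intro k hk
    rw [hTd, Finset.mem_sdiff, hU, Finset.mem_union] at hk
    tauto
  have h1 := total n hn U Finset.subset_union_left f hf p hp2
    (fun k => if k = 2 * n then ENNReal.ofReal (Cn p n) else A) (fun k hk f hf => by
    by_cases h : k = 2 * n
    · simp only [h, if_true]
      refine Pool.Agent.Y282.RB.Fin2.schw n p hn hp f ?_
      intro a z ha
      have h2 := hf a z ha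
      rw [h] at h2
      rw [h2]
      norm_cast
    · simp only [h, if_false]
      exact one n hn k h p hp2 f hf)
  refine h1.trans ?_
  gcongr
  have hcard : (T.card : ℝ≥0∞) ≤ (S.card : ℝ≥0∞) := by
    exact_mod_cast Finset.card_le_card hT
  have h2 : ∑ k ∈ T, (if k = 2 * (n : ℤ) then ENNReal.ofReal (Cn p n) else A) ≤
      ENNReal.ofReal (Cn p n) + (S.card : ℝ≥0∞) * A := by
    calc ∑ k ∈ T, (if k = 2 * (n : ℤ) then ENNReal.ofReal (Cn p n) else A)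
        ≤ ∑ k ∈ T, ((if k = 2 * (n : ℤ) then ENNReal.ofReal (Cn p n) else 0) + A) := by
          refine Finset.sum_le_sum fun k _ => ?_
          split_ifs
          · exact le_self_add
          · rw [zero_add]
      _ = (∑ k ∈ T, (if k = 2 * (n : ℤ) then ENNReal.ofReal (Cn p n) else 0)) + (T.card : ℝ≥0∞) * A := by
          rw [Finset.sum_add_distrib, Finset.sum_const, nsmul_eq_mul]
      _ ≤ ENNReal.ofReal (Cn p n) + (S.card : ℝ≥0∞) * A := by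
          gcongr
          rw [Finset.sum_ite_eq']
          split_ifs
          · exact le_rfl
          · exact bot_le
  have h3 : (2 * (S.card : ℝ) + 1) * (eO n) ^ (1 - 2 / p) ≤ 15 * (S.card + 1) / (p - 1) * Cn p n := by
    have h4 := K_ge n hn p hp2
    have h5 : 0 ≤ (eO n) ^ (1 - 2 / p) := Real.rpow_nonneg (eO_pos n).le _
    have hm : (0 : ℝ) ≤ (S.card : ℝ) := Nat.cast_nonneg _
    have hp1 : 0 < p - 1 := by linarith
    rw [div_mul_eq_mul_div, le_div_iff₀ hp1]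
    have h6 : (2 * (S.card : ℝ) + 1) * ((p - 1) * (eO n) ^ (1 - 2 / p)) ≤
        (2 * (S.card : ℝ) + 1) * (7.3891 * Cn p n) := mul_le_mul_of_nonneg_left h4 (by positivity)
    nlinarith [mul_nonneg hm hK0]
  have e : ENNReal.ofReal (2 * (S.card : ℝ) + 1) = 2 * (S.card : ℝ≥0∞) + 1 := by
    rw [ENNReal.ofReal_add (by positivity) zero_le_one, ENNReal.ofReal_mul (by norm_num), ENNReal.ofReal_natCast]
    norm_num
  calc ENNReal.ofReal ((1 + 11 / 2 * n) ^ (1 - 2 / p)) * (1 + (T.card : ℝ≥0∞)) +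
      ∑ k ∈ T, (if k = 2 * (n : ℤ) then ENNReal.ofReal (Cn p n) else A)
      ≤ A * (1 + (S.card : ℝ≥0∞)) + (ENNReal.ofReal (Cn p n) + (S.card : ℝ≥0∞) * A) := by
        gcongr
        exact band_le n hn p hp2
    _ = (2 * (S.card : ℝ≥0∞) + 1) * A + ENNReal.ofReal (Cn p n) := by ring
    _ = ENNReal.ofReal ((2 * (S.card : ℝ) + 1) * (eO n) ^ (1 - 2 / p)) + ENNReal.ofReal (Cn p n) := by
        rw [ENNReal.ofReal_mul (by positivity), e, ← hA]
    _ = ENNReal.ofReal ((2 * (S.card : ℝ) + 1) * (eO n) ^ (1 - 2 / p) + Cn p n) := by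
        rw [ENNReal.ofReal_add (mul_nonneg (by positivity) (Real.rpow_nonneg (eO_pos n).le _)) hK0]
    _ ≤ ENNReal.ofReal ((1 + 15 * (S.card + 1) / (p - 1)) * Cn p n) := by
        refine ENNReal.ofReal_le_ofReal ?_
        rw [add_mul, one_mul]
        linarith

end Pool.Agent.Q276.BA.Any
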