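import Pool.Agent.Q276.BA.Fin
import Pool.Agent.Q182.BA.Num

/-! Project BA: the band `[-n, n]` -/

set_option autoImplicit false

open MeasureTheory Set Filter Topology
open scoped BigOperators ENNReal SchwartzMap ContDiff FourierTransform

namespace Pool.Agent.Q276.BA.Band

/-- the bound with the logarithm -/
theorem vlog (n : ℕ) (S : Finset ℤ) (hn : 1 ≤ n) (hS : ∀ k ∈ S, k ≤ n) :
    ∫ v in (0 : ℝ)..1, Real.sqrt (∑ k ∈ S, (QQ n k v) ^ 2) ≤
      Real.sqrt (Real.log (2 * n + 1) * ∑ k ∈ S, wt n k) :=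
  Pool.Agent.Q130.BA.H12.h1 Pool.Agent.Q190.BA.a3' Pool.Agent.Q190.BA.a4' n S hn hS

/-- small `n` -/
theorem vsmall (n : ℕ) (hn : 1 ≤ n) (hn2 : n ≤ 10000) :
    ∫ v in (0 : ℝ)..1, Real.sqrt (∑ k ∈ Finset.Icc (-(n : ℤ)) n, (QQ n k v) ^ 2) ≤ 5.5 * n := by
  refine (vlog n _ hn fun k hk => (Finset.mem_Icc.1 hk).2).trans ?_
  have h1 := Pool.Agent.Q130.BA.H12.h2 n n hn le_rfl
  have hn' : (1 : ℝ) ≤ n := by exact_mod_cast hn
  have hn3 : (n : ℝ) ≤ 10000 := by exact_mod_cast hn2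
  have hlog : Real.log (2 * n + 1) ≤ 10.398 := by
    have h2 : (2 * (n : ℝ) + 1) ≤ 2 ^ 15 := by norm_num; linarith
    have h3 := Real.log_le_log (by linarith) h2
    rw [Real.log_pow] at h3
    have h4 := Real.log_two_lt_d9
    push_cast at h3
    linarith
  have hlog0 : 0 ≤ Real.log (2 * n + 1) := Real.log_nonneg (by linarith)
  rw [Real.sqrt_le_left (by linarith)]
  have h5 : Real.log (2 * n + 1) * ∑ k ∈ Finset.Icc (-(n : ℤ)) n, wt n k ≤
      Real.log (2 * n + 1) * ((2 * n + 1) * n) := mul_le_mul_of_nonneg_left h1 hlog0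
  rcases Nat.lt_or_ge n 2 with h6 | h6
  · have h7 : n = 1 := by omega
    subst h7
    have h8 : Real.log (2 * ((1 : ℕ) : ℝ) + 1) ≤ 2 := by
      have h9 := Real.log_le_sub_one_of_pos (x := 2 * ((1 : ℕ) : ℝ) + 1) (by norm_num)
      norm_num at h9 ⊢
      linarith
    refine h5.trans ?_
    have h10 : Real.log (2 * ((1 : ℕ) : ℝ) + 1) * ((2 * ((1 : ℕ) : ℝ) + 1) * ((1 : ℕ) : ℝ)) ≤ 2 * 3 := by
      refine (mul_le_mul_of_nonneg_right h8 (by positivity)).trans (le_of_eq ?_)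
      norm_num
    refine h10.trans ?_
    norm_num
  · have h7 : (2 : ℝ) ≤ n := by exact_mod_cast h6
    have h8 : Real.log (2 * n + 1) * ((2 * n + 1) * n) ≤ 10.398 * ((2 * n + 1) * n) :=
      mul_le_mul_of_nonneg_right hlog (by positivity)
    nlinarith

end Pool.Agent.Q276.BA.Band
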