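import Pool.Agent.Q276.BA.Stm

/-! Project BA, part D: one-dimensional calculus -/

set_option autoImplicit false

open MeasureTheory Set Filter Topology
open scoped BigOperators ENNReal SchwartzMap ContDiff

namespace Pool.Agent.Q276.BA.D1

/-- tail integrals of functions which vanish on the right -/
lemma ioi_eq (F : ℝ → ℂ) (R t : ℝ) (hR : ∀ x, R ≤ x → F x = 0) (ht : t ≤ R) :
    ∫ u in Ioi t, F u = ∫ u in t..R, F u := by
  rw [intervalIntegral.integral_of_le ht]
  refine setIntegral_eq_of_subset_of_forall_sdiff_eq_zero measurableSet_Ioi Ioc_subset_Ioi_self ?_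
  intro x hx
  refine hR x ?_
  by_contra h
  exact hx.2 ⟨hx.1, (not_le.1 h).le⟩

lemma ioi_zero (F : ℝ → ℂ) (R t : ℝ) (hR : ∀ x, R ≤ x → F x = 0) (ht : R ≤ t) :
    ∫ u in Ioi t, F u = 0 := by
  refine setIntegral_eq_zero_of_forall_eq_zero fun x hx => hR x (ht.trans (le_of_lt hx))

/-- integration by parts -/
lemma by_parts (A B : ℝ → ℂ) (hA : Continuous A) (hB : Continuous B) (R : ℝ) :
    ∫ t in (0 : ℝ)..R, A t * (∫ u in t..R, B u) = ∫ t in (0 : ℝ)..R, (∫ s in (0 : ℝ)..t, A s) * B t := by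
  have h1 : ∀ t ∈ uIcc (0 : ℝ) R, HasDerivAt (fun t => ∫ s in (0 : ℝ)..t, A s) (A t) t :=
    fun t _ => (hA.integral_hasStrictDerivAt 0 t).hasDerivAt
  have h2 : ∀ t ∈ uIcc (0 : ℝ) R, HasDerivAt (fun t => ∫ u in t..R, B u) (-B t) t := by
    intro t _
    have h3 := (hB.integral_hasStrictDerivAt R t).hasDerivAt.neg
    refine h3.congr_of_eventuallyEq (Eventually.of_forall fun x => ?_)
    simp only [Pi.neg_apply]
    rw [intervalIntegral.integral_symm]
  have h3 := intervalIntegral.integral_mul_deriv_eq_deriv_mul h1 h2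
    (hA.intervalIntegrable _ _) (hB.neg.intervalIntegrable _ _)
  simp only [intervalIntegral.integral_same, mul_zero, zero_mul, sub_self, zero_sub] at h3
  have h4 : ∫ x in (0 : ℝ)..R, (∫ s in (0 : ℝ)..x, A s) * -B x =
      -∫ x in (0 : ℝ)..R, (∫ s in (0 : ℝ)..x, A s) * B x := by
    rw [← intervalIntegral.integral_neg]
    refine intervalIntegral.integral_congr fun x _ => ?_
    simp only [mul_neg]
  rw [h4] at h3
  exact (neg_injective h3).symm

/-- scaling -/
lemma scal (φ : ℝ → ℂ) (l : ℕ) (t : ℝ) :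
    ∫ s in (0 : ℝ)..t, φ s * (s : ℂ) ^ l = (t : ℂ) ^ (l + 1) * ∫ v in (0 : ℝ)..1, φ (t * v) * (v : ℂ) ^ l := by
  rcases eq_or_ne t 0 with rfl | ht
  · simp
  · have h1 := intervalIntegral.smul_integral_comp_mul_left (fun s => φ s * (s : ℂ) ^ l) t (a := 0) (b := 1)
    rw [mul_zero, mul_one] at h1
    rw [← h1]
    have h2 : ∀ v : ℝ, φ (t * v) * ((t * v : ℝ) : ℂ) ^ l = (t : ℂ) ^ l * (φ (t * v) * (v : ℂ) ^ l) := by
      intro v
      push_cast
      rw [mul_pow]
      ring
    simp only [h2]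
    rw [intervalIntegral.integral_const_mul, Complex.real_smul, pow_succ]
    ring

end Pool.Agent.Q276.BA.D1
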