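import Pool.Agent.Q276.BA.D1

/-! Project BA, part D: the one-dimensional pairing -/

set_option autoImplicit false

open MeasureTheory Set Filter Topology
open scoped BigOperators ENNReal SchwartzMap ContDiff

namespace Pool.Agent.Q276.BA.D2

open Pool.Agent.Q276.BA.D1

/-- `φ(t) + ∫_0^1 p(v) φ(t v) dv` -/
noncomputable def Bf (b n : ℕ) (φ : ℝ → ℂ) (t : ℝ) : ℂ := φ t + ∫ v in (0 : ℝ)..1, (pp b n v : ℂ) * φ (t * v)

lemma cont_pp (b n : ℕ) : Continuous (pp b n) := by
  unfold pp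
  fun_prop

lemma Bf_eq (b n : ℕ) (φ : ℝ → ℂ) (hφ : Continuous φ) (t : ℝ) : Bf b n φ t =
    φ t + ∑ l ∈ Finset.range n, ((cc b n l : ℝ) : ℂ) * ∫ v in (0 : ℝ)..1, φ (t * v) * (v : ℂ) ^ l := by
  unfold Bf
  congr 1
  have h1 : ∀ l ∈ Finset.range n, ((cc b n l : ℝ) : ℂ) * ∫ v in (0 : ℝ)..1, φ (t * v) * (v : ℂ) ^ l =
      ∫ v in (0 : ℝ)..1, ((cc b n l : ℝ) : ℂ) * (φ (t * v) * (v : ℂ) ^ l) := by
    intro l _
    rw [intervalIntegral.integral_const_mul]
  rw [Finset.sum_congr rfl h1, ← intervalIntegral.integral_finsetSum]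
  · refine intervalIntegral.integral_congr fun v _ => ?_
    unfold pp
    push_cast
    rw [Finset.sum_mul]
    refine Finset.sum_congr rfl fun l _ => ?_
    ring
  · intro l _
    apply Continuous.intervalIntegrable
    fun_prop

lemma cont_int (φ : ℝ → ℂ) (hφ : Continuous φ) (l : ℕ) :
    Continuous fun t : ℝ => ∫ v in (0 : ℝ)..1, φ (t * v) * (v : ℂ) ^ l := by
  apply intervalIntegral.continuous_parametric_intervalIntegral_of_continuous'
  fun_prop

lemma cont_Bf (b n : ℕ) (φ : ℝ → ℂ) (hφ : Continuous φ) : Continuous (Bf b n φ) := by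
  have h : Bf b n φ = fun t => φ t + ∑ l ∈ Finset.range n, ((cc b n l : ℝ) : ℂ) *
      ∫ v in (0 : ℝ)..1, φ (t * v) * (v : ℂ) ^ l := funext fun t => Bf_eq b n φ hφ t
  rw [h]
  refine hφ.add (continuous_finsetSum _ fun l _ => continuous_const.mul (cont_int φ hφ l))

lemma key1 (b n : ℕ) (φ : ℝ → ℂ) (hφ : Continuous φ) (g : ℝ → ℂ) (hg : Continuous g) (R : ℝ) (h0 : 0 ≤ R)
    (hR : ∀ x, R ≤ x → g x = 0) (W : ℝ → ℂ)
    (hW : ∀ t, W t = (t : ℂ) ^ n * g t + ∑ l ∈ Finset.range n, ((cc b n l : ℝ) : ℂ) * (t : ℂ) ^ l *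
      ∫ u in Ioi t, (u : ℂ) ^ (n - 1 - l) * g u) :
    ∫ t in (0 : ℝ)..R, φ t * W t = ∫ t in (0 : ℝ)..R, g t * ((t : ℂ) ^ n * Bf b n φ t) := by
  have hB : ∀ l, Continuous fun u : ℝ => (u : ℂ) ^ (n - 1 - l) * g u := by
    intro l
    fun_prop
  have hN : ∀ l, Continuous fun t : ℝ => ∫ u in t..R, (u : ℂ) ^ (n - 1 - l) * g u := by
    intro l
    have h1 : Continuous fun t : ℝ => ∫ u in R..t, (u : ℂ) ^ (n - 1 - l) * g u :=
      intervalIntegral.continuous_primitive (fun a b => (hB l).intervalIntegrable a b) R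
    have h2 : (fun t : ℝ => ∫ u in t..R, (u : ℂ) ^ (n - 1 - l) * g u) =
        fun t : ℝ => -∫ u in R..t, (u : ℂ) ^ (n - 1 - l) * g u := by
      funext t
      rw [intervalIntegral.integral_symm]
    rw [h2]
    exact h1.neg
  have e1 : ∫ t in (0 : ℝ)..R, φ t * W t = ∫ t in (0 : ℝ)..R, (φ t * ((t : ℂ) ^ n * g t) +
      ∑ l ∈ Finset.range n, ((cc b n l : ℝ) : ℂ) * ((φ t * (t : ℂ) ^ l) *
        ∫ u in t..R, (u : ℂ) ^ (n - 1 - l) * g u)) := by
    refine intervalIntegral.integral_congr fun t ht => ?_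
    rw [uIcc_of_le h0] at ht
    rw [hW t, mul_add, Finset.mul_sum]
    congr 1
    refine Finset.sum_congr rfl fun l _ => ?_
    rw [ioi_eq _ R t (fun x hx => by rw [hR x hx, mul_zero]) ht.2]
    ring
  have e2 : ∀ l ∈ Finset.range n, ∫ t in (0 : ℝ)..R, ((cc b n l : ℝ) : ℂ) * ((φ t * (t : ℂ) ^ l) *
        ∫ u in t..R, (u : ℂ) ^ (n - 1 - l) * g u) =
      ∫ t in (0 : ℝ)..R, ((cc b n l : ℝ) : ℂ) * (g t * ((t : ℂ) ^ n *
        ∫ v in (0 : ℝ)..1, φ (t * v) * (v : ℂ) ^ l)) := by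
    intro l hl
    rw [Finset.mem_range] at hl
    rw [intervalIntegral.integral_const_mul, intervalIntegral.integral_const_mul]
    congr 1
    rw [by_parts (fun t => φ t * (t : ℂ) ^ l) _ (by fun_prop) (hB l) R]
    refine intervalIntegral.integral_congr fun t _ => ?_
    rw [scal]
    have e : (t : ℂ) ^ n = (t : ℂ) ^ (l + 1) * (t : ℂ) ^ (n - 1 - l) := by
      rw [← pow_add]
      congr 1
      omega
    rw [e]
    ring
  have i1 : IntervalIntegrable (fun t : ℝ => φ t * ((t : ℂ) ^ n * g t)) volume 0 R := by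
    apply Continuous.intervalIntegrable
    fun_prop
  have i2 : ∀ l, IntervalIntegrable (fun t : ℝ => ((cc b n l : ℝ) : ℂ) * ((φ t * (t : ℂ) ^ l) *
        ∫ u in t..R, (u : ℂ) ^ (n - 1 - l) * g u)) volume 0 R := by
    intro l
    apply Continuous.intervalIntegrable
    have := hN l
    fun_prop
  have i3 : ∀ l, IntervalIntegrable (fun t : ℝ => ((cc b n l : ℝ) : ℂ) * (g t * ((t : ℂ) ^ n *
        ∫ v in (0 : ℝ)..1, φ (t * v) * (v : ℂ) ^ l))) volume 0 R := by
    intro l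
    apply Continuous.intervalIntegrable
    have := cont_int φ hφ l
    fun_prop
  rw [e1, intervalIntegral.integral_add i1, intervalIntegral.integral_finsetSum (fun l _ => i2 l),
    Finset.sum_congr rfl e2, ← intervalIntegral.integral_finsetSum (fun l _ => i3 l),
    ← intervalIntegral.integral_add i1]
  · refine intervalIntegral.integral_congr fun t _ => ?_
    rw [Bf_eq b n φ hφ, mul_add, mul_add, Finset.mul_sum, Finset.mul_sum]
    congr 1
    · ring
    · refine Finset.sum_congr rfl fun l _ => ?_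
      ring
  · apply Continuous.intervalIntegrable
    refine continuous_finsetSum _ fun l _ => ?_
    have := cont_int φ hφ l
    fun_prop
  · apply Continuous.intervalIntegrable
    refine continuous_finsetSum _ fun l _ => ?_
    have := hN l
    fun_prop

end Pool.Agent.Q276.BA.D2
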