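import Pool.Agent.Q276.BA.D2
import Pool.Agent.Y282.RB.A1

/-! Project BA, part D: the formula for `T ^ n` on frequencies `≤ 0` -/

set_option autoImplicit false

open MeasureTheory Set Filter Topology
open scoped BigOperators ENNReal SchwartzMap ContDiff FourierTransform

namespace Pool.Agent.Q276.BA.D3

open Pool.Agent.Y282.RB (Tn)
open Pool.Agent.Y282.RB.A2 (db dd db_iter dd_iter Tn_db Ft_eq HH)
open Pool.Agent.Q276.BA.D1 Pool.Agent.Q276.BA.D2

/-- polar coordinates -/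
lemma int_normSq (F : ℝ → ℂ) :
    ∫ z : ℂ, F (Complex.normSq z) = (Real.pi : ℂ) * ∫ x in Ioi (0 : ℝ), F x := by
  rw [← Complex.integral_comp_polarCoord_symm]
  have h1 : ∀ q : ℝ × ℝ, q.1 • F (Complex.normSq (Complex.polarCoord.symm q)) =
      ((q.1 : ℂ) * F (q.1 ^ 2)) * 1 := by
    intro q
    have : Complex.normSq (Complex.polarCoord.symm q) = q.1 ^ 2 := by
      rw [Complex.normSq_eq_norm_sq, Complex.norm_polarCoord_symm, sq_abs]
    rw [this, Complex.real_smul, mul_one]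
  simp_rw [h1]
  rw [polarCoord_target, Measure.volume_eq_prod,
    setIntegral_prod_mul (fun r : ℝ => (r : ℂ) * F (r ^ 2)) (fun _ : ℝ => (1 : ℂ))]
  have h2 : ∫ _y in Ioo (-Real.pi) Real.pi, (1 : ℂ) = ((2 * Real.pi : ℝ) : ℂ) := by
    rw [setIntegral_const, Measure.real, Real.volume_Ioo, Complex.real_smul, mul_one,
      ENNReal.toReal_ofReal (by
      have := Real.pi_pos
      linarith)]
    congr 1
    ring
  rw [h2]
  have h3 := integral_comp_rpow_Ioi_of_pos (g := F) (p := 2) (by norm_num)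
  have h4 : ∫ x in Ioi (0 : ℝ), (2 * x ^ ((2 : ℝ) - 1)) • F (x ^ (2 : ℝ))
      = 2 * ∫ x in Ioi (0 : ℝ), (x : ℂ) * F (x ^ 2) := by
    rw [← integral_const_mul]
    refine setIntegral_congr_fun measurableSet_Ioi (fun x _ => ?_)
    have e : (2 : ℝ) - 1 = 1 := by norm_num
    simp only [e, Real.rpow_one, Real.rpow_two, Complex.real_smul]
    push_cast
    ring
  rw [h4] at h3
  rw [← h3]
  push_cast
  ring

lemma norm_e (a : ℝ) : ‖Complex.exp (2 * (Real.pi : ℂ) * Complex.I * (a : ℂ))‖ = 1 := by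
  have : 2 * (Real.pi : ℂ) * Complex.I * (a : ℂ) = ((2 * Real.pi * a : ℝ) : ℂ) * Complex.I := by
    push_cast; ring
  rw [this, Complex.norm_exp_ofReal_mul_I]

lemma norm_m (n : ℕ) (ξ : ℂ) : ‖(starRingEnd ℂ ξ / ξ) ^ n‖ ≤ 1 := by
  rw [norm_pow]
  refine pow_le_one₀ (norm_nonneg _) ?_
  rw [norm_div, RCLike.norm_conj]
  exact div_self_le_one _

lemma cont_Tn (n : ℕ) (f : 𝓢(ℂ, ℂ)) : Continuous (Tn n f) := by
  unfold Tn
  simp only [Ft_eq]
  refine continuous_of_dominated (bound := fun ξ => ‖(𝓕 f : 𝓢(ℂ, ℂ)) ξ‖) (fun z => ?_) (fun z => ?_) ?_ ?_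
  · refine AEStronglyMeasurable.mul ?_ (AEStronglyMeasurable.mul ?_ ?_)
    · apply Measurable.aestronglyMeasurable
      fun_prop
    · apply Measurable.aestronglyMeasurable
      have h1 : Measurable fun ξ : ℂ => starRingEnd ℂ ξ := Complex.continuous_conj.measurable
      exact (h1.div measurable_id).pow_const n
    · exact (𝓕 f : 𝓢(ℂ, ℂ)).continuous.aestronglyMeasurable
  · refine Eventually.of_forall fun ξ => ?_
    rw [norm_mul, norm_mul, norm_e, one_mul]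
    exact mul_le_of_le_one_left (norm_nonneg _) (norm_m n ξ)
  · exact (𝓕 f : 𝓢(ℂ, ℂ)).integrable.norm
  · refine Eventually.of_forall fun ξ => ?_
    fun_prop

/-- functions of a negative class -/
lemma cls_rad {m : ℕ} {F : ℂ → ℂ} (h : Cls (-(m : ℤ)) F) (z : ℂ) :
    z ^ m * F z = ((√(Complex.normSq z) : ℝ) : ℂ) ^ m * F ((√(Complex.normSq z) : ℝ) : ℂ) := by
  rcases eq_or_ne z 0 with rfl | hz
  · simp
  · have hs : √(Complex.normSq z) = ‖z‖ := rfl
    have hn : (‖z‖ : ℂ) ≠ 0 := Complex.ofReal_ne_zero.2 (norm_ne_zero_iff.2 hz)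
    have ha : ‖z / (‖z‖ : ℂ)‖ = 1 := by
      rw [norm_div, Complex.norm_real, norm_norm]
      exact div_self (norm_ne_zero_iff.2 hz)
    have h3 := h (z / (‖z‖ : ℂ)) (‖z‖ : ℂ) ha
    rw [div_mul_cancel₀ _ hn] at h3
    rw [hs, h3, zpow_neg, zpow_natCast, div_pow]
    have hzm : z ^ m ≠ 0 := pow_ne_zero _ hz
    field_simp

/-- smooth functions with compact support of the form `z ^ m Φ(|z|²)` -/
lemma exists_sch (m : ℕ) (Φ : ℝ → ℂ) (hΦ : ContDiff ℝ ∞ Φ) (hR : ∃ R : ℝ, ∀ x, R ≤ x → Φ x = 0) :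
    ∃ F : 𝓢(ℂ, ℂ), ∀ z, F z = z ^ m * Φ (Complex.normSq z) := by
  obtain ⟨R, hR⟩ := hR
  have hs : ContDiff ℝ ∞ (fun z : ℂ => z ^ m * Φ (Complex.normSq z)) := by
    have h1 : ContDiff ℝ ∞ (Complex.normSq : ℂ → ℝ) := by
      have e : (Complex.normSq : ℂ → ℝ) = fun z => z.re * z.re + z.im * z.im := by
        funext z
        exact Complex.normSq_apply z
      rw [e]
      exact (Complex.reCLM.contDiff.mul Complex.reCLM.contDiff).add
        (Complex.imCLM.contDiff.mul Complex.imCLM.contDiff)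
    exact (contDiff_id.pow m).mul (hΦ.comp h1)
  have hc : HasCompactSupport (fun z : ℂ => z ^ m * Φ (Complex.normSq z)) := by
    refine HasCompactSupport.intro (isCompact_closedBall (0 : ℂ) (|R| + 1)) fun w hw => ?_
    rw [Metric.mem_closedBall, dist_zero_right, not_le] at hw
    have h1 : R ≤ Complex.normSq w := by
      rw [Complex.normSq_eq_norm_sq]
      nlinarith [le_abs_self R, abs_nonneg R]
    rw [hR _ h1, mul_zero]
  exact ⟨hc.toSchwartzMap hs, fun z => rfl⟩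

/-- the pairing in one dimension -/
lemma pairing (hB : S_B) (hC1 : S_C1) (hC2 : S_C2) (n b : ℕ) (f : 𝓢(ℂ, ℂ)) (hf : Cls (-(b : ℤ)) f)
    (g : ℝ → ℂ) (hg : ContDiff ℝ ∞ g) (R : ℝ) (h0 : 0 ≤ R) (hR : ∀ x, R ≤ x → g x = 0) :
    ∫ x in Ioi (0 : ℝ), (((√x : ℝ) : ℂ) ^ (b + 2 * n) * Tn n f ((√x : ℝ) : ℂ)) * g x =
      ∫ x in Ioi (0 : ℝ), g x * ((x : ℂ) ^ n * Bf b n (fun t => ((√t : ℝ) : ℂ) ^ b * f ((√t : ℝ) : ℂ)) x) := by
  obtain ⟨Φ, hΦ1, hΦ2, hΦ3⟩ := Pool.Agent.Y282.RB.A1.key n R g hg hR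
  obtain ⟨F, hF⟩ := exists_sch (n + b) Φ hΦ1 ⟨R, hΦ2⟩
  have hp := hC1 n f (db^[n] F)
  have hcl := hC2 n (-(b : ℤ)) f hf
  have hcl' : Cls (-((b + 2 * n : ℕ) : ℤ)) (Tn n f) := by
    have e : (-((b + 2 * n : ℕ) : ℤ)) = -(b : ℤ) - 2 * n := by push_cast; ring
    rw [e]
    exact hcl
  have e1 : ∀ z : ℂ, Tn n f z * (db^[n] F) z =
      (fun x : ℝ => (((√x : ℝ) : ℂ) ^ (b + 2 * n) * Tn n f ((√x : ℝ) : ℂ)) * g x) (Complex.normSq z) := by
    intro z
    rw [db_iter hΦ1 hF n z, hΦ3]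
    have h1 := cls_rad hcl' z
    simp only
    rw [← h1]
    have e : n + b + n = b + 2 * n := by ring
    rw [e]
    ring
  have e2 : ∀ z : ℂ, f z * Tn n (db^[n] F) z =
      (fun x : ℝ => (((√x : ℝ) : ℂ) ^ b * f ((√x : ℝ) : ℂ)) * HH (n + b) Φ n x) (Complex.normSq z) := by
    intro z
    rw [Tn_db, dd_iter hΦ1 hF n (by omega) z]
    have h1 := cls_rad hf z
    simp only
    rw [← h1]
    have e : n + b - n = b := by omega
    rw [e]
    ring
  rw [integral_congr_ae (Eventually.of_forall e1), integral_congr_ae (Eventually.of_forall e2)] at hp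
  rw [int_normSq (fun x : ℝ => (((√x : ℝ) : ℂ) ^ (b + 2 * n) * Tn n f ((√x : ℝ) : ℂ)) * g x),
    int_normSq (fun x : ℝ => (((√x : ℝ) : ℂ) ^ b * f ((√x : ℝ) : ℂ)) * HH (n + b) Φ n x)] at hp
  have hpi : (Real.pi : ℂ) ≠ 0 := by exact_mod_cast Real.pi_ne_zero
  have hp2 := mul_left_cancel₀ hpi hp
  rw [hp2]
  have hW := hB (n + b) n (by omega) Φ hΦ1 ⟨R, hΦ2⟩
  rw [hΦ3] at hW
  have en : n + b - n = b := by omega
  rw [en] at hW
  have hφ : Continuous fun t : ℝ => ((√t : ℝ) : ℂ) ^ b * f ((√t : ℝ) : ℂ) := by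
    have h1 : Continuous f := f.continuous
    fun_prop
  have hk := key1 b n _ hφ g hg.continuous R h0 hR _ hW
  have hz : ∀ x, R ≤ x → HH (n + b) Φ n x = 0 := by
    intro x hx
    rw [hW x, hR x hx, mul_zero, zero_add]
    refine Finset.sum_eq_zero fun l _ => ?_
    rw [ioi_zero _ R x (fun y hy => by rw [hR y hy, mul_zero]) hx, mul_zero]
  rw [ioi_eq _ R 0 (fun x hx => by rw [hz x hx, mul_zero]) h0,
    ioi_eq _ R 0 (fun x hx => by rw [hR x hx, zero_mul]) h0]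
  exact hk

end Pool.Agent.Q276.BA.D3
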