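import Pool.Agent.Q276.BA.D3

/-! Project BA, part D: the formula for `T ^ n` on frequencies `≤ n` -/

set_option autoImplicit false

open MeasureTheory Set Filter Topology
open scoped BigOperators ENNReal SchwartzMap ContDiff FourierTransform

namespace Pool.Agent.Q276.BA.D4

open Pool.Agent.Y282.RB (Tn)
open Pool.Agent.Q276.BA.D1 Pool.Agent.Q276.BA.D2 Pool.Agent.Q276.BA.D3

/-- du Bois-Reymond on the half-line -/
lemma dbr (Ψ : ℝ → ℂ) (hΨ : Continuous Ψ) (h : ∀ g : ℝ → ℝ, ContDiff ℝ ∞ g → HasCompactSupport g →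
    tsupport g ⊆ Ioi 0 → ∫ x in Ioi (0 : ℝ), (g x : ℂ) * Ψ x = 0) : ∀ x, 0 < x → Ψ x = 0 := by
  have h1 := isOpen_Ioi.ae_eq_zero_of_integral_contDiff_smul_eq_zero (μ := (volume : Measure ℝ))
    (f := Ψ) (U := Ioi (0 : ℝ)) (hΨ.locallyIntegrable.locallyIntegrableOn _) (fun g hg1 hg2 hg3 => by
      have h2 := h g hg1 hg2 hg3
      rw [← h2, ← setIntegral_eq_integral_of_forall_compl_eq_zero (s := Ioi (0 : ℝ))]
      · rfl
      · intro x hx
        have : g x = 0 := by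
          by_contra hne
          exact hx (hg3 (subset_tsupport g (Function.mem_support.2 hne)))
        rw [this, zero_smul])
  have h2 : Ψ =ᵐ[(volume : Measure ℝ).restrict (Ioi 0)] fun _ => (0 : ℂ) := by
    rw [Filter.EventuallyEq, ae_restrict_iff' measurableSet_Ioi]
    exact h1
  have h3 := Measure.eqOn_open_of_ae_eq h2 isOpen_Ioi hΨ.continuousOn continuousOn_const
  exact fun x hx => h3 hx

/-- the right side of the formula -/
lemma AA_eq (b n : ℕ) (f : ℂ → ℂ) (hf : Cls (-(b : ℤ)) f) (z : ℂ) : z ^ b * AA (qq b n) f z =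
    Bf b n (fun t => ((√t : ℝ) : ℂ) ^ b * f ((√t : ℝ) : ℂ)) (Complex.normSq z) := by
  unfold AA Bf
  rw [mul_add, cls_rad hf z, ← intervalIntegral.integral_const_mul]
  congr 1
  refine intervalIntegral.integral_congr fun v hv => ?_
  rw [uIcc_of_le zero_le_one] at hv
  have h1 := cls_rad hf (((√v : ℝ) : ℂ) * z)
  have h2 : Complex.normSq (((√v : ℝ) : ℂ) * z) = Complex.normSq z * v := by
    rw [Complex.normSq_mul, Complex.normSq_ofReal, Real.mul_self_sqrt hv.1, mul_comm]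
  rw [h2] at h1
  simp only
  rw [← h1]
  unfold qq
  push_cast
  rw [mul_pow]
  ring

theorem d (hB : S_B) (hC1 : S_C1) (hC2 : S_C2) : S_D := by
  intro n b f hf z hz
  have hfc : Continuous f := f.continuous
  have hφ : Continuous fun t : ℝ => ((√t : ℝ) : ℂ) ^ b * f ((√t : ℝ) : ℂ) := by fun_prop
  have hBf := cont_Bf b n _ hφ
  have hT := cont_Tn n f
  have hρ : Continuous fun x : ℝ => ((√x : ℝ) : ℂ) ^ (b + 2 * n) * Tn n f ((√x : ℝ) : ℂ) := by fun_prop
  have hQ : Continuous fun x : ℝ => (x : ℂ) ^ n *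
      Bf b n (fun t => ((√t : ℝ) : ℂ) ^ b * f ((√t : ℝ) : ℂ)) x := by fun_prop
  have key := dbr (fun x : ℝ => ((√x : ℝ) : ℂ) ^ (b + 2 * n) * Tn n f ((√x : ℝ) : ℂ) - (x : ℂ) ^ n *
      Bf b n (fun t => ((√t : ℝ) : ℂ) ^ b * f ((√t : ℝ) : ℂ)) x) (hρ.sub hQ) (by
    intro g hg1 hg2 hg3
    obtain ⟨R, hR⟩ : ∃ R : ℝ, ∀ x, R ≤ x → g x = 0 := by
      obtain ⟨R, hR⟩ := hg2.isCompact.isBounded.bddAbove
      refine ⟨R + 1, fun x hx => ?_⟩
      by_contra h
      have h1 : x ∈ tsupport g := subset_tsupport g (Function.mem_support.2 h)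
      have h2 := hR h1
      linarith
    have hgs : ContDiff ℝ ∞ (fun x : ℝ => (g x : ℂ)) := Complex.ofRealCLM.contDiff.comp hg1
    have h1 := pairing hB hC1 hC2 n b f hf (fun x => (g x : ℂ)) hgs (max R 0) (le_max_right _ _)
      (fun x hx => by rw [hR x ((le_max_left _ _).trans hx), Complex.ofReal_zero])
    have hgc : HasCompactSupport (fun x : ℝ => (g x : ℂ)) :=
      hg2.comp_left (g := fun y : ℝ => (y : ℂ)) (by simp)
    have hgcont : Continuous fun x : ℝ => (g x : ℂ) := hgs.continuous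
    have i1 : Integrable (fun x : ℝ => (g x : ℂ) * (((√x : ℝ) : ℂ) ^ (b + 2 * n) * Tn n f ((√x : ℝ) : ℂ))) :=
      (hgcont.mul hρ).integrable_of_hasCompactSupport hgc.mul_right
    have i2 : Integrable (fun x : ℝ => (g x : ℂ) * ((x : ℂ) ^ n *
        Bf b n (fun t => ((√t : ℝ) : ℂ) ^ b * f ((√t : ℝ) : ℂ)) x)) :=
      (hgcont.mul hQ).integrable_of_hasCompactSupport hgc.mul_right
    have e1 : ∫ x in Ioi (0 : ℝ), (g x : ℂ) * (((√x : ℝ) : ℂ) ^ (b + 2 * n) * Tn n f ((√x : ℝ) : ℂ) -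
        (x : ℂ) ^ n * Bf b n (fun t => ((√t : ℝ) : ℂ) ^ b * f ((√t : ℝ) : ℂ)) x) =
        (∫ x in Ioi (0 : ℝ), (g x : ℂ) * (((√x : ℝ) : ℂ) ^ (b + 2 * n) * Tn n f ((√x : ℝ) : ℂ))) -
        ∫ x in Ioi (0 : ℝ), (g x : ℂ) * ((x : ℂ) ^ n *
          Bf b n (fun t => ((√t : ℝ) : ℂ) ^ b * f ((√t : ℝ) : ℂ)) x) := by
      rw [← integral_sub i1.integrableOn i2.integrableOn]
      refine integral_congr_ae (Eventually.of_forall fun x => ?_)
      simp only
      ring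
    rw [e1, sub_eq_zero, ← h1]
    refine integral_congr_ae (Eventually.of_forall fun x => ?_)
    simp only
    ring)
  have hx : 0 < Complex.normSq z := Complex.normSq_pos.2 hz
  have h2 := sub_eq_zero.1 (key _ hx)
  have hcl := hC2 n (-(b : ℤ)) f hf
  have hcl' : Cls (-((b + 2 * n : ℕ) : ℤ)) (Tn n f) := by
    have e : (-((b + 2 * n : ℕ) : ℤ)) = -(b : ℤ) - 2 * n := by push_cast; ring
    rw [e]
    exact hcl
  rw [← cls_rad hcl' z, ← AA_eq b n f hf z] at h2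
  have hzp : z ^ (b + 2 * n) ≠ 0 := pow_ne_zero _ hz
  have h3 : z ^ (b + 2 * n) * ((starRingEnd ℂ z / z) ^ n * AA (qq b n) f z) =
      ((Complex.normSq z : ℝ) : ℂ) ^ n * (z ^ b * AA (qq b n) f z) := by
    rw [← Complex.mul_conj, pow_add, pow_mul, div_pow, mul_pow]
    have h4 : z ^ n ≠ 0 := pow_ne_zero _ hz
    have h5 : (z ^ 2) ^ n = z ^ n * z ^ n := by rw [sq, mul_pow]
    rw [h5]
    field_simp
  rw [← h3] at h2
  exact mul_left_cancel₀ hzp h2

end Pool.Agent.Q276.BA.D4
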