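import Pool.Agent.Q276.BA.D4

/-! Project BA, part D: frequencies `0 ≤ k ≤ n` by reflection -/

set_option autoImplicit false

open MeasureTheory Set Filter Topology
open scoped BigOperators ENNReal SchwartzMap ContDiff FourierTransform

namespace Pool.Agent.Q276.BA.D5

open Pool.Agent.Y282.RB (Tn)

lemma conj_eq_inv {a : ℂ} (ha : ‖a‖ = 1) : starRingEnd ℂ a = a⁻¹ := by
  rw [Complex.inv_def, Complex.normSq_eq_norm_sq, ha]
  simp

lemma norm_conj_div {z : ℂ} (hz : z ≠ 0) : ‖starRingEnd ℂ z / z‖ = 1 := by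
  rw [norm_div, RCLike.norm_conj]
  exact div_self (norm_ne_zero_iff.2 hz)

/-- composition with the conjugation -/
noncomputable def cj (f : 𝓢(ℂ, ℂ)) : 𝓢(ℂ, ℂ) :=
  SchwartzMap.compCLMOfContinuousLinearEquiv ℝ Complex.conjCLE f

lemma cj_apply (f : 𝓢(ℂ, ℂ)) (z : ℂ) : cj f z = f (starRingEnd ℂ z) := rfl

theorem d2 (hD : S_D) (hC3 : S_C3) : S_D2 := by
  intro n k hk f hf z hz
  rcases le_total k 0 with h0 | h0
  · obtain ⟨b, hb⟩ : ∃ b : ℕ, k = -(b : ℤ) := ⟨k.natAbs, by omega⟩
    subst hb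
    have e : QQ n (-(b : ℤ)) = qq b n := by
      unfold QQ
      rw [Int.natAbs_neg, Int.natAbs_natCast]
      congr 1
      have : (-(b : ℤ)).toNat = 0 := by omega
      rw [this, Nat.sub_zero]
    rw [e]
    exact hD n b f hf z hz
  · obtain ⟨b, hb⟩ : ∃ b : ℕ, k = (b : ℤ) := ⟨k.toNat, by omega⟩
    subst hb
    have hbn : b ≤ n := by exact_mod_cast hk
    have e : QQ n (b : ℤ) = qq b (n - b) := by
      unfold QQ
      rw [Int.natAbs_natCast, Int.toNat_natCast]
    rw [e]
    have hg : Cls (-(b : ℤ)) (cj f) := by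
      intro a w ha
      rw [cj_apply, cj_apply, map_mul, hf _ _ (by rw [RCLike.norm_conj]; exact ha), conj_eq_inv ha,
        zpow_neg, inv_zpow]
    rw [hC3 n b hbn f (cj f) hf (cj_apply f) z, hD (n - b) b (cj f) hg z hz]
    have h1 : ∀ w : ℝ, f (starRingEnd ℂ ((w : ℂ) * z)) = (starRingEnd ℂ z / z) ^ b * f ((w : ℂ) * z) := by
      intro w
      have h2 := hf (starRingEnd ℂ z / z) ((w : ℂ) * z) (norm_conj_div hz)
      have h3 : starRingEnd ℂ z / z * ((w : ℂ) * z) = starRingEnd ℂ ((w : ℂ) * z) := by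
        rw [map_mul, Complex.conj_ofReal]
        field_simp
      rw [h3, zpow_natCast] at h2
      exact h2
    have h4 : AA (qq b (n - b)) (cj f) z = (starRingEnd ℂ z / z) ^ b * AA (qq b (n - b)) f z := by
      unfold AA
      rw [mul_add, ← intervalIntegral.integral_const_mul]
      congr 1
      · have := h1 1
        rw [Complex.ofReal_one, one_mul] at this
        rw [cj_apply]
        exact this
      · refine intervalIntegral.integral_congr fun v _ => ?_
        rw [cj_apply, h1]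
        ring
    rw [h4, ← mul_assoc, ← pow_add]
    congr 2
    omega

end Pool.Agent.Q276.BA.D5
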