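import Pool.Agent.Q276.BA.Stm2

/-!
# Project BA (helper276), third part: larger bands of frequencies and larger exponents
-/

set_option autoImplicit false

open MeasureTheory Set Filter Topology
open scoped BigOperators ENNReal SchwartzMap

namespace Pool.Agent.Q276.BA

/-- As `S_N3`, with `X = n + D` and `t = 1 - 5 / (4 X)`: for `-D ≤ k ≤ n` one has `1 ≤ t^(-D) t^(-k)`, so by `S_N1`, `S_N2`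
the integral of `(1 - v)^(3/4) ∑_{-D ≤ k ≤ n} q_k(v)²` is at most `1.2 n^(3/4) (4 X / 5)^(5/4) t^(-(X-1))`;
`log (1/t) ≤ (1-t)/t = 5/(4X-5)`, so `t^(-(X-1)) ≤ exp(5 (X-1)/(4X-5)) ≤ exp(10/7) ≤ 4.18` for `X ≥ 3`; by Cauchy-Schwarz
with `∫_0^1 (1 - v)^(-3/4) dv = 4` the square of the left side is at most
`4 * 1.2 * 4.18 * (4/5)^(5/4) n^(3/4) X^(5/4) ≤ 16 n^(3/4) X^(5/4)`. -/
def S_N5 : Prop := S_N1 → S_N2 → ∀ n D : ℕ, 1 ≤ n → 3 ≤ n + D →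
  ∫ v in (0 : ℝ)..1, Real.sqrt (∑ k ∈ Finset.Icc (-(D : ℤ)) n, (QQ n k v) ^ 2) ≤
    4 * (n : ℝ) ^ (3 / 8 : ℝ) * ((n : ℝ) + D) ^ (5 / 8 : ℝ)

/-- The factor `j = 0` of `Cn p n` is `p - 1`, the factors `j ≥ 1` are at least `exp (2 u / (2 j + 1))`, `u = 1 - 2 / p`
(see `S_H3`), and `eO n / e² ≥ 2.876 (2 n + 1) / 7.3891 ≥ 0.778 n` for `n ≥ 2` (see `S_H4`); for `n = 1` it is
`0.778 ^ u ≤ 1`. -/
def S_N6 : Prop := ∀ (n : ℕ) (p : ℝ), 1 ≤ n → 2 ≤ p →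
  (p - 1) * (0.778 * (n : ℝ)) ^ (1 - 2 / p) ≤ Pool.Agent.Y282.RB.Cn p n

/-- With `X = (1 + D / n) ^ (5/8) ≥ 1`: `M = 1 + 4 n X ≤ 0.778 n (p - 1)`, and `M ^ u ≤ (0.778 n) ^ u (p - 1) ^ u ≤
(0.778 n) ^ u (p - 1)` since `p - 1 ≥ 1`, `u ≤ 1`; then `S_N6`. -/
def S_N7 : Prop := S_N6 → ∀ (n D : ℕ) (p : ℝ), 1 ≤ n → 3 + 6 * (1 + (D : ℝ) / n) ^ (5 / 8 : ℝ) ≤ p →
  (1 + 4 * (n : ℝ) ^ (3 / 8 : ℝ) * ((n : ℝ) + D) ^ (5 / 8 : ℝ)) ^ (1 - 2 / p) ≤ Pool.Agent.Y282.RB.Cn p n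

end Pool.Agent.Q276.BA
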