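import Pool.Agent.Q276.BA.Trans
import Pool.Agent.Q276.BA.Band
import Pool.Agent.Q276.BA.Stm3
import Pool.Agent.Q121.BA.E1
import Pool.Agent.Q182.BA.F1
import Pool.Agent.Y282.RB.K3
import Pool.Agent.Y282.RB.N

/-! Project BA: main theorems -/

set_option autoImplicit false

open MeasureTheory Set Filter Topology
open scoped BigOperators ENNReal SchwartzMap ContDiff FourierTransform

namespace Pool.Agent.Q276.BA.Main

open Pool.Agent.Y282.RB (Tn Cn)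

/-- finite sums of Schwartz functions of frequencies `k ∈ S` about a point -/
def Freq (S : Finset ℤ) (f : 𝓢(ℂ, ℂ)) : Prop := ∃ (c : ℂ) (g : ℤ → 𝓢(ℂ, ℂ)), f = ∑ k ∈ S, g k ∧
  ∀ k ∈ S, ∀ a z : ℂ, ‖a‖ = 1 → g k (c + a * z) = a ^ k * g k (c + z)

theorem gen (n : ℕ) (S : Finset ℤ) (hS : ∀ k ∈ S, k ≤ n) (V : ℝ)
    (hV : ∫ v in (0 : ℝ)..1, Real.sqrt (∑ k ∈ S, (QQ n k v) ^ 2) ≤ V) (p : ℝ) (hp : 2 ≤ p) (f : 𝓢(ℂ, ℂ))
    (hf : Freq S f) : eLpNorm (Tn n f) (ENNReal.ofReal p) (volume : Measure ℂ) ≤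
      ENNReal.ofReal ((1 + V) ^ (1 - 2 / p)) * eLpNorm f (ENNReal.ofReal p) (volume : Measure ℂ) := by
  obtain ⟨c, g, rfl, hg⟩ := hf
  exact Trans.main Pool.Agent.Q121.BA.E.e Pool.Agent.Q182.BA.f1 n S hS c g hg V hV p hp

/-- general sets of frequencies -/
theorem log_version (n : ℕ) (hn : 1 ≤ n) (S : Finset ℤ) (hS : ∀ k ∈ S, k ≤ n) (p : ℝ) (hp : 2 ≤ p)
    (f : 𝓢(ℂ, ℂ)) (hf : Freq S f) : eLpNorm (Tn n f) (ENNReal.ofReal p) (volume : Measure ℂ) ≤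
      ENNReal.ofReal ((1 + Real.sqrt (Real.log (2 * n + 1) * ∑ k ∈ S, wt n k)) ^ (1 - 2 / p)) *
        eLpNorm f (ENNReal.ofReal p) (volume : Measure ℂ) :=
  gen n S hS _ (Band.vlog n S hn hS) p hp f hf

theorem band (h1 : S_N1) (h2 : S_N2) (h3 : S_N3) (n : ℕ) (hn : 1 ≤ n) :
    ∫ v in (0 : ℝ)..1, Real.sqrt (∑ k ∈ Finset.Icc (-(n : ℤ)) n, (QQ n k v) ^ 2) ≤ 5.5 * n := by
  rcases le_total n 10000 with h | h
  · exact Band.vsmall n hn h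
  · exact h3 h1 h2 n h

theorem band_version (h1 : S_N1) (h2 : S_N2) (h3 : S_N3) (n : ℕ) (hn : 1 ≤ n) (p : ℝ) (hp : 2 ≤ p)
    (f : 𝓢(ℂ, ℂ)) (hf : Freq (Finset.Icc (-(n : ℤ)) n) f) :
    eLpNorm (Tn n f) (ENNReal.ofReal p) (volume : Measure ℂ) ≤
      ENNReal.ofReal ((1 + 11 / 2 * n) ^ (1 - 2 / p)) * eLpNorm f (ENNReal.ofReal p) (volume : Measure ℂ) := by
  have e : (11 / 2 * (n : ℝ)) = 5.5 * n := by norm_num
  rw [e]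
  exact gen n _ (fun k hk => (Finset.mem_Icc.1 hk).2) _ (band h1 h2 h3 n hn) p hp f hf

lemma K_eq (n : ℕ) (p : ℝ) (hp : 2 ≤ p) :
    Cn p n = (ascPochhammer ℝ n).eval (1 - 1 / p) / (ascPochhammer ℝ n).eval (1 / p) :=
  Pool.Agent.Y282.RB.K3.main n p (by linarith)

lemma K_le (n : ℕ) (hn : 1 ≤ n) (p : ℝ) (hp : 2 ≤ p) : Cn p n ≤ (n : ℝ) ^ (1 - 2 / p) * (p - 1) :=
  Pool.Agent.Y282.RB.N.main n p hn hp

/-- the bound of the question on `[-n, n]` -/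
theorem band_K (h1 : S_N1) (h2 : S_N2) (h3 : S_N3) (h4 : S_N4) (n : ℕ) (hn : 1 ≤ n) (p : ℝ) (hp : 2 ≤ p)
    (f : 𝓢(ℂ, ℂ)) (hf : Freq (Finset.Icc (-(n : ℤ)) n) f) :
    eLpNorm (Tn n f) (ENNReal.ofReal p) (volume : Measure ℂ) ≤
      ENNReal.ofReal (Cn p n) * eLpNorm f (ENNReal.ofReal p) (volume : Measure ℂ) := by
  refine (band_version h1 h2 h3 n hn p hp f hf).trans ?_
  gcongr
  have e : (1 + 11 / 2 * (n : ℝ)) = 1 + 5.5 * n := by norm_num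
  rw [e]
  refine Pool.Agent.Q182.BA.h3 n p (1 + 5.5 * n) hp ?_ (h4.1 n hn)
  have : (0 : ℝ) ≤ n := Nat.cast_nonneg n
  linarith

/-- larger bands -/
theorem wide (h1 : S_N1) (h2 : S_N2) (h3 : S_N3) (h5 : S_N5) (n D : ℕ) (hn : 1 ≤ n) (hD : n ≤ D) (p : ℝ) (hp : 2 ≤ p)
    (f : 𝓢(ℂ, ℂ)) (hf : Freq (Finset.Icc (-(D : ℤ)) n) f) :
    eLpNorm (Tn n f) (ENNReal.ofReal p) (volume : Measure ℂ) ≤
      ENNReal.ofReal ((1 + 4 * (n : ℝ) ^ (3 / 8 : ℝ) * ((n : ℝ) + D) ^ (5 / 8 : ℝ)) ^ (1 - 2 / p)) *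
        eLpNorm f (ENNReal.ofReal p) (volume : Measure ℂ) := by
  refine gen n _ (fun k hk => (Finset.mem_Icc.1 hk).2) _ ?_ p hp f hf
  rcases Nat.lt_or_ge (n + D) 3 with h | h
  · have hn1 : n = 1 := by omega
    have hD1 : D = 1 := by omega
    subst hn1 hD1
    refine (band h1 h2 h3 1 le_rfl).trans ?_
    have h6 : (1.4 : ℝ) ≤ 2 ^ (5 / 8 : ℝ) := by
      have h7 : (1.4 : ℝ) = ((1.4 : ℝ) ^ (8 : ℝ)) ^ (1 / 8 : ℝ) := by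
        rw [← Real.rpow_mul (by norm_num)]
        norm_num
      have h8 : (2 : ℝ) ^ (5 / 8 : ℝ) = ((2 : ℝ) ^ (5 : ℝ)) ^ (1 / 8 : ℝ) := by
        rw [← Real.rpow_mul (by norm_num)]
        norm_num
      rw [h7, h8]
      refine Real.rpow_le_rpow (by positivity) ?_ (by norm_num)
      have h9 : (1.4 : ℝ) ^ (8 : ℝ) = 1.4 ^ 8 := by exact_mod_cast Real.rpow_natCast 1.4 8
      have h10 : (2 : ℝ) ^ (5 : ℝ) = 2 ^ 5 := by exact_mod_cast Real.rpow_natCast 2 5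
      rw [h9, h10]
      norm_num
    push_cast
    rw [Real.one_rpow]
    norm_num at h6 ⊢
    linarith
  · exact h5 h1 h2 n D hn h

theorem wide_K (h1 : S_N1) (h2 : S_N2) (h3 : S_N3) (h5 : S_N5) (h6 : S_N6) (h7 : S_N7) (n D : ℕ) (hn : 1 ≤ n)
    (hD : n ≤ D) (p : ℝ) (hp : 3 + 6 * (1 + (D : ℝ) / n) ^ (5 / 8 : ℝ) ≤ p)
    (f : 𝓢(ℂ, ℂ)) (hf : Freq (Finset.Icc (-(D : ℤ)) n) f) :
    eLpNorm (Tn n f) (ENNReal.ofReal p) (volume : Measure ℂ) ≤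
      ENNReal.ofReal (Cn p n) * eLpNorm f (ENNReal.ofReal p) (volume : Measure ℂ) := by
  have hp2 : 2 ≤ p := by
    have : (0 : ℝ) ≤ 6 * (1 + (D : ℝ) / n) ^ (5 / 8 : ℝ) := by positivity
    linarith
  refine (wide h1 h2 h3 h5 n D hn hD p hp2 f hf).trans ?_
  gcongr
  exact h7 h6 n D p hn hp

end Pool.Agent.Q276.BA.Main
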