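import Pool.Agent.Q276.BA.All
import Pool.Agent.Q78.BB.Fin
import Pool.Agent.Y282.RB.Fin2

/-! Project BA: arbitrary finite sets of frequencies -/

set_option autoImplicit false

open MeasureTheory Set Filter Topology
open scoped BigOperators ENNReal SchwartzMap ContDiff FourierTransform

namespace Pool.Agent.Q276.BA.Proj

open Pool.Agent.Y282.RB (Tn Cn)

lemma rot_norm (a : ℂ) (ha : ‖a‖ = 1) (F : ℂ → ℂ) (hF : Continuous F) (P : ℝ≥0∞) :
    eLpNorm (fun z => F (a * z)) P (volume : Measure ℂ) = eLpNorm F P (volume : Measure ℂ) := by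
  have h : MeasurePreserving (rotation ⟨a, mem_sphere_zero_iff_norm.2 ha⟩) (volume : Measure ℂ) volume :=
    (rotation ⟨a, mem_sphere_zero_iff_norm.2 ha⟩).measurePreserving
  exact eLpNorm_comp_measurePreserving (g := F) hF.aestronglyMeasurable h

lemma norm_root (x : ℝ) : ‖Complex.exp (2 * (Real.pi : ℂ) * Complex.I * (x : ℂ))‖ = 1 := by
  have : 2 * (Real.pi : ℂ) * Complex.I * (x : ℂ) = ((2 * Real.pi * x : ℝ) : ℂ) * Complex.I := by
    push_cast; ring
  rw [this, Complex.norm_exp_ofReal_mul_I]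

/-- the projection on the frequencies `≡ k (mod m)` does not increase norms -/
lemma pr_norm (m : ℕ) (hm : 1 ≤ m) (k : ℤ) (F : ℂ → ℂ) (hF : Continuous F) (P : ℝ≥0∞) (hP : 1 ≤ P) :
    eLpNorm (pr m k F) P (volume : Measure ℂ) ≤ eLpNorm F P (volume : Measure ℂ) := by
  have hm0 : (m : ℝ) ≠ 0 := by
    have : m ≠ 0 := by omega
    exact_mod_cast this
  have e1 : pr m k F = (1 / (m : ℂ)) • ∑ j ∈ Finset.range m, (fun z : ℂ =>
      Complex.exp (-(2 * (Real.pi : ℂ) * Complex.I * (j * k / m))) •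
        F (Complex.exp (2 * (Real.pi : ℂ) * Complex.I * (j / m)) * z)) := by
    funext z
    rw [Pi.smul_apply, Finset.sum_apply]
    rfl
  have hc : ∀ j : ℕ, Continuous fun z : ℂ => Complex.exp (-(2 * (Real.pi : ℂ) * Complex.I * (j * k / m))) •
        F (Complex.exp (2 * (Real.pi : ℂ) * Complex.I * (j / m)) * z) := by
    intro j
    have h1 : Continuous fun z : ℂ => F (Complex.exp (2 * (Real.pi : ℂ) * Complex.I * (j / m)) * z) :=
      hF.comp (continuous_const.mul continuous_id)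
    exact Continuous.const_smul (M := ℂ) h1 _
  have hb : ∀ j ∈ Finset.range m, eLpNorm (fun z : ℂ =>
      Complex.exp (-(2 * (Real.pi : ℂ) * Complex.I * (j * k / m))) •
        F (Complex.exp (2 * (Real.pi : ℂ) * Complex.I * (j / m)) * z)) P (volume : Measure ℂ) ≤
      eLpNorm F P (volume : Measure ℂ) := by
    intro j _
    have h1 : (fun z : ℂ => Complex.exp (-(2 * (Real.pi : ℂ) * Complex.I * (j * k / m))) •
        F (Complex.exp (2 * (Real.pi : ℂ) * Complex.I * (j / m)) * z)) =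
        Complex.exp (-(2 * (Real.pi : ℂ) * Complex.I * (j * k / m))) •
          (fun z : ℂ => F (Complex.exp (2 * (Real.pi : ℂ) * Complex.I * (j / m)) * z)) := rfl
    rw [h1, eLpNorm_const_smul]
    have h2 : ‖Complex.exp (-(2 * (Real.pi : ℂ) * Complex.I * (j * k / m)))‖ = 1 := by
      have h3 := norm_root (-(j * k / m : ℝ))
      have e : 2 * (Real.pi : ℂ) * Complex.I * ((-(j * k / m : ℝ) : ℝ) : ℂ) =
          -(2 * (Real.pi : ℂ) * Complex.I * (j * k / m)) := by
        push_cast; ring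
      rwa [e] at h3
    have h4 : ‖Complex.exp (2 * (Real.pi : ℂ) * Complex.I * (j / m))‖ = 1 := by
      have h3 := norm_root (j / m : ℝ)
      have e : 2 * (Real.pi : ℂ) * Complex.I * ((j / m : ℝ) : ℂ) =
          2 * (Real.pi : ℂ) * Complex.I * (j / m) := by
        push_cast; ring
      rwa [e] at h3
    rw [rot_norm _ h4 F hF P]
    have h5 : ‖Complex.exp (-(2 * (Real.pi : ℂ) * Complex.I * (j * k / m)))‖ₑ = 1 := by
      rw [← ofReal_norm, h2, ENNReal.ofReal_one]
    rw [h5, one_mul]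
  rw [e1, eLpNorm_const_smul]
  calc ‖(1 / (m : ℂ))‖ₑ * eLpNorm (∑ j ∈ Finset.range m, (fun z : ℂ =>
      Complex.exp (-(2 * (Real.pi : ℂ) * Complex.I * (j * k / m))) •
        F (Complex.exp (2 * (Real.pi : ℂ) * Complex.I * (j / m)) * z))) P (volume : Measure ℂ)
      ≤ ‖(1 / (m : ℂ))‖ₑ * ∑ j ∈ Finset.range m, eLpNorm (fun z : ℂ =>
      Complex.exp (-(2 * (Real.pi : ℂ) * Complex.I * (j * k / m))) •
        F (Complex.exp (2 * (Real.pi : ℂ) * Complex.I * (j / m)) * z)) P (volume : Measure ℂ) := by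
        gcongr
        exact eLpNorm_sum_le (fun j _ => (hc j).aestronglyMeasurable) hP
    _ ≤ ‖(1 / (m : ℂ))‖ₑ * ∑ j ∈ Finset.range m, eLpNorm F P (volume : Measure ℂ) := by
        gcongr with j hj
        exact hb j hj
    _ = eLpNorm F P (volume : Measure ℂ) := by
        rw [Finset.sum_const, Finset.card_range, nsmul_eq_mul, ← mul_assoc]
        have h1 : ‖(1 / (m : ℂ))‖ₑ * (m : ℝ≥0∞) = 1 := by
          rw [← ofReal_norm, norm_div, norm_one, Complex.norm_natCast, ← ENNReal.ofReal_natCast,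
            ← ENNReal.ofReal_mul (by positivity), one_div, inv_mul_cancel₀ hm0, ENNReal.ofReal_one]
        rw [h1, one_mul]

/-- the components of a sum -/
lemma comp_norm (S : Finset ℤ) (f : ℤ → 𝓢(ℂ, ℂ)) (hf : ∀ k ∈ S, Cls k (f k)) (k : ℤ) (hk : k ∈ S) (P : ℝ≥0∞)
    (hP : 1 ≤ P) : eLpNorm (f k) P (volume : Measure ℂ) ≤
      eLpNorm ((∑ k ∈ S, f k : 𝓢(ℂ, ℂ)) : ℂ → ℂ) P (volume : Measure ℂ) := by
  obtain ⟨m, hm, hS⟩ := Fin.exists_mod S
  have h1 : pr m k ((∑ k ∈ S, f k : 𝓢(ℂ, ℂ)) : ℂ → ℂ) = f k := by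
    funext z
    rw [Fin.coe_sum]
    exact Fin.pr_family m hm S hS (fun k => ⇑(f k)) hf k hk z
  have h2 := pr_norm m hm k _ (SchwartzMap.continuous (∑ k ∈ S, f k : 𝓢(ℂ, ℂ))) P hP
  rwa [h1] at h2

end Pool.Agent.Q276.BA.Proj
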