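import Pool.Agent.Q276.BA.Stm4
import Pool.Agent.Q276.BA.Main

/-! Project BA: single frequencies -/

set_option autoImplicit false

open MeasureTheory Set Filter Topology
open scoped BigOperators ENNReal SchwartzMap ContDiff FourierTransform

namespace Pool.Agent.Q276.BA.Single

open Pool.Agent.Y282.RB (Tn Cn)

lemma int_w (m : ℝ) (hm : 0 < m) :
    ∫ v in (0 : ℝ)..1, 1 / (1 + m ^ 2 * (1 - v) ^ 2) ≤ Real.pi / (2 * m) := by
  have hd : ∀ v ∈ uIcc (0 : ℝ) 1, HasDerivAt (fun v : ℝ => -(Real.arctan (m * (1 - v)) / m))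
      (1 / (1 + m ^ 2 * (1 - v) ^ 2)) v := by
    intro v _
    have h1 : HasDerivAt (fun v : ℝ => m * (1 - v)) (m * (-1)) v := by
      have := ((hasDerivAt_id v).const_sub 1).const_mul m
      simpa using this
    have h2 := ((h1.arctan).div_const m).neg
    have e : -(1 / (1 + (m * (1 - v)) ^ 2) * (m * -1) / m) = 1 / (1 + m ^ 2 * (1 - v) ^ 2) := by
      have h3 : (1 + (m * (1 - v)) ^ 2) = 1 + m ^ 2 * (1 - v) ^ 2 := by ring
      rw [h3]
      have h4 : (0 : ℝ) < 1 + m ^ 2 * (1 - v) ^ 2 := by positivity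
      field_simp
    rw [e] at h2
    exact h2
  rw [intervalIntegral.integral_eq_sub_of_hasDerivAt hd]
  · simp only [sub_self, mul_zero, Real.arctan_zero, zero_div, neg_zero, sub_zero, mul_one, zero_sub, neg_neg]
    have h1 := (Real.arctan_lt_pi_div_two m).le
    rw [div_le_div_iff₀ hm (by positivity)]
    nlinarith
  · apply ContinuousOn.intervalIntegrable
    refine ContinuousOn.div continuousOn_const (by fun_prop) fun v _ => ?_
    positivity

/-- one kernel -/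
theorem v (hJ : S_J) (b N : ℕ) : ∫ v in (0 : ℝ)..1, |qq b N v| ≤ 2.11 * (N : ℝ) ^ (3 / 4 : ℝ) := by
  rcases Nat.eq_zero_or_pos N with h0 | h0
  · subst h0
    have e : ∀ v ∈ Set.uIcc (0 : ℝ) 1, |qq b 0 v| = 0 := by
      intro v _
      simp [qq, pp]
    rw [intervalIntegral.integral_congr (g := fun _ => (0 : ℝ)) e]
    simp
  have hN : (1 : ℝ) ≤ N := by exact_mod_cast h0
  have hb : (0 : ℝ) ≤ b := Nat.cast_nonneg b
  set c : ℝ := (N : ℝ) * (N + b) with hc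
  set d : ℝ := 2 * N + b with hd
  have hd2 : 2 ≤ d := by rw [hd]; linarith
  have hc0 : 0 < c := by rw [hc]; positivity
  have hdd : 0 < d * (d ^ 2 - 1) := mul_pos (by linarith) (by nlinarith)
  set J : ℝ := 2 * c ^ 2 / (d * (d ^ 2 - 1)) with hJd
  have hJ0 : 0 < J := by rw [hJd]; positivity
  have h1 : ∫ v in (0 : ℝ)..1, (1 - v) ^ 2 * (qq b N v) ^ 2 = J := hJ b N h0
  have h2 : ∫ v in (0 : ℝ)..1, (qq b N v) ^ 2 = c := Pool.Agent.Q190.BA.a3' b N
  set m : ℝ := Real.sqrt (c / J) with hm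
  have hm0 : 0 < m := Real.sqrt_pos.2 (by positivity)
  have hm2 : m ^ 2 = c / J := Real.sq_sqrt (by positivity)
  have hq : Continuous (qq b N) := Pool.Agent.Q130.BA.H12.qq_cont b N
  have h3 := Pool.Agent.Q130.BA.H12.cs (fun v => 1 + m ^ 2 * (1 - v) ^ 2) (fun v => (qq b N v) ^ 2)
    (by fun_prop) (fun v _ => by positivity) (hq.pow 2) (fun v => sq_nonneg _)
  simp only [Real.sqrt_sq_eq_abs] at h3
  have h4 : ∫ v in (0 : ℝ)..1, (1 + m ^ 2 * (1 - v) ^ 2) * (qq b N v) ^ 2 = 2 * c := by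
    have e : ∀ v : ℝ, (1 + m ^ 2 * (1 - v) ^ 2) * (qq b N v) ^ 2 =
        (qq b N v) ^ 2 + m ^ 2 * ((1 - v) ^ 2 * (qq b N v) ^ 2) := fun v => by ring
    simp only [e]
    rw [intervalIntegral.integral_add (Continuous.intervalIntegrable (by fun_prop) _ _)
      (Continuous.intervalIntegrable (by fun_prop) _ _), intervalIntegral.integral_const_mul, h1, h2, hm2]
    field_simp
    ring
  rw [h4] at h3
  refine h3.trans ?_
  have h5 := int_w m hm0
  have h6 : c * J ≤ 2 * (N : ℝ) ^ 3 := by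
    rw [hJd, mul_div_assoc', div_le_iff₀ hdd]
    have h7 : ((N : ℝ) + b) ^ 3 ≤ d * (d ^ 2 - 1) := by
      have h8 : d = (N + b) + N := by rw [hd]; ring
      have h9 : 0 ≤ ((N : ℝ) + b) := by positivity
      have h10 : d * (d ^ 2 - 1) - ((N : ℝ) + b) ^ 3 = N * (d ^ 2 + d * (N + b) + (N + b) ^ 2) - d := by
        rw [h8]
        ring
      have h11 : d ≤ N * (d ^ 2 + d * (N + b) + (N + b) ^ 2) := by
        have h12 : d ≤ d ^ 2 := by nlinarith
        have h13 : d ^ 2 ≤ d ^ 2 + d * (N + b) + (N + b) ^ 2 := by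
          have : 0 ≤ d * (N + b) := mul_nonneg (by linarith) h9
          nlinarith [sq_nonneg ((N : ℝ) + b)]
        have h14 : 0 ≤ d ^ 2 + d * (N + b) + (N + b) ^ 2 := by nlinarith
        nlinarith
      linarith
    have h15 : c * (2 * c ^ 2) = 2 * (N : ℝ) ^ 3 * (N + b) ^ 3 := by rw [hc]; ring
    rw [h15]
    exact mul_le_mul_of_nonneg_left h7 (by positivity)
  have h7 : (c / m) ^ 2 ≤ 2 * (N : ℝ) ^ 3 := by
    rw [div_pow, hm2]
    have : c ^ 2 / (c / J) = c * J := by field_simp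
    rw [this]
    exact h6
  have h8 : (0 : ℝ) ≤ (N : ℝ) ^ (3 / 4 : ℝ) := by positivity
  have h9 : ((N : ℝ) ^ (3 / 4 : ℝ)) ^ 4 = (N : ℝ) ^ 3 := by
    rw [← Real.rpow_natCast, ← Real.rpow_mul (by positivity), ← Real.rpow_natCast]
    norm_num
  have h10 : c / m ≤ 1.4143 * ((N : ℝ) ^ (3 / 4 : ℝ)) ^ 2 := by
    refine abs_le_of_sq_le_sq' ?_ (by positivity) |>.2
    calc (c / m) ^ 2 ≤ 2 * (N : ℝ) ^ 3 := h7
      _ ≤ (1.4143 * ((N : ℝ) ^ (3 / 4 : ℝ)) ^ 2) ^ 2 := by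
        rw [mul_pow, ← pow_mul, show 2 * 2 = 4 by norm_num, h9]
        have : (0 : ℝ) ≤ (N : ℝ) ^ 3 := by positivity
        nlinarith
  rw [Real.sqrt_le_left (by positivity)]
  calc (∫ v in (0 : ℝ)..1, 1 / (1 + m ^ 2 * (1 - v) ^ 2)) * (2 * c) ≤ Real.pi / (2 * m) * (2 * c) :=
        mul_le_mul_of_nonneg_right h5 (by positivity)
    _ = Real.pi * (c / m) := by field_simp
    _ ≤ 3.1416 * (1.4143 * ((N : ℝ) ^ (3 / 4 : ℝ)) ^ 2) := by
        refine mul_le_mul Real.pi_lt_d4.le h10 (by positivity) (by norm_num)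
    _ ≤ (2.11 * (N : ℝ) ^ (3 / 4 : ℝ)) ^ 2 := by
        rw [mul_pow, ← mul_assoc]
        refine mul_le_mul_of_nonneg_right (by norm_num) (by positivity)

/-- one frequency -/
theorem single (hJ : S_J) (n : ℕ) (k : ℤ) (hk : k ≤ n) (p : ℝ) (hp : 2 ≤ p) (f : 𝓢(ℂ, ℂ))
    (hf : Main.Freq {k} f) : eLpNorm (Tn n f) (ENNReal.ofReal p) (volume : Measure ℂ) ≤
      ENNReal.ofReal ((1 + 2.11 * ((n - k.toNat : ℕ) : ℝ) ^ (3 / 4 : ℝ)) ^ (1 - 2 / p)) *
        eLpNorm f (ENNReal.ofReal p) (volume : Measure ℂ) := by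
  refine Main.gen n {k} (by simpa using hk) _ ?_ p hp f hf
  have e : ∀ v : ℝ, Real.sqrt (∑ k ∈ ({k} : Finset ℤ), (QQ n k v) ^ 2) = |qq k.natAbs (n - k.toNat) v| := by
    intro v
    rw [Finset.sum_singleton, Real.sqrt_sq_eq_abs]
    rfl
  simp only [e]
  exact v hJ _ _

theorem single_K (hJ : S_J) (h4 : S_N4) (n : ℕ) (hn : 1 ≤ n) (k : ℤ) (hk : k ≤ n) (p : ℝ) (hp : 2 ≤ p)
    (f : 𝓢(ℂ, ℂ)) (hf : Main.Freq {k} f) : eLpNorm (Tn n f) (ENNReal.ofReal p) (volume : Measure ℂ) ≤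
      ENNReal.ofReal (Cn p n) * eLpNorm f (ENNReal.ofReal p) (volume : Measure ℂ) := by
  refine (single hJ n k hk p hp f hf).trans ?_
  gcongr
  have hn' : (1 : ℝ) ≤ n := by exact_mod_cast hn
  have h1 : ((n - k.toNat : ℕ) : ℝ) ^ (3 / 4 : ℝ) ≤ n := by
    calc ((n - k.toNat : ℕ) : ℝ) ^ (3 / 4 : ℝ) ≤ (n : ℝ) ^ (3 / 4 : ℝ) := by
          refine Real.rpow_le_rpow (Nat.cast_nonneg _) ?_ (by norm_num)
          exact_mod_cast Nat.sub_le _ _
      _ ≤ (n : ℝ) ^ (1 : ℝ) := Real.rpow_le_rpow_of_exponent_le hn' (by norm_num)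
      _ = n := Real.rpow_one _
  have h0 : (0 : ℝ) ≤ ((n - k.toNat : ℕ) : ℝ) ^ (3 / 4 : ℝ) := by positivity
  refine Pool.Agent.Q182.BA.h3 n p _ hp (by linarith) (le_trans ?_ (h4.1 n hn))
  linarith

end Pool.Agent.Q276.BA.Single
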