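import Pool.Agent.Y282.RB.A2

/-!
# Project BA (helper276): powers of the Beurling transform on functions with bounded angular frequencies

Let `T` be the Beurling transform (Fourier multiplier `conj ξ / ξ`) and let `f` have angular frequency `k ≤ n`, that is
`f (a z) = a ^ k f z` for `|a| = 1`. Then `T ^ n f z = (conj z / z) ^ n (f z + ∫_0^1 q_k(v) f(√v z) dv)` with an explicit
kernel `q_k`; this operator is an isometry of `L²`, and on bounded functions the kernels of all frequencies in `[-D, D]`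
together have norm at most `1 + √((2 D + 1) n log(2 n + 1))`. Interpolation gives the bound for `L^p`.
-/

set_option autoImplicit false

open MeasureTheory Set Filter Topology
open scoped BigOperators ENNReal SchwartzMap

namespace Pool.Agent.Q276.BA

open Pool.Agent.Y282.RB (Tn)

/-! ### Part A : the kernels -/

/-- the coefficients `c_l` -/
noncomputable def cc (b N l : ℕ) : ℝ :=
  (-1) ^ (N + l) * (N : ℝ) * ((N - 1).choose l : ℝ) * ((N + b + l).choose N : ℝ)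

/-- the polynomial `p(v) = ∑_{l < N} c_l v ^ l` -/
noncomputable def pp (b N : ℕ) (v : ℝ) : ℝ := ∑ l ∈ Finset.range N, cc b N l * v ^ l

/-- the kernel `q(v) = v ^ (b / 2) p(v)` -/
noncomputable def qq (b N : ℕ) (v : ℝ) : ℝ := (Real.sqrt v) ^ b * pp b N v

/-- `1 + ∫_0^1 v ^ (b + s) p(v) dv = 0` for `s < N`. (For `s < N` the number `(N + b + l choose N) / (b + s + l + 1)` is a
polynomial in `l` of degree `N - 1` with leading coefficient `1 / N!`; take its difference of order `N - 1`.) -/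
def S_A1 : Prop := ∀ b N s : ℕ, s < N →
  ∑ l ∈ Finset.range N, cc b N l / ((b : ℝ) + s + l + 1) = -1

/-- The kernel identity (from `S_A1`: `∫_0^1 w ^ b p(w) w ^ s dw = -1` for `s < N`). -/
def S_A2 : Prop := ∀ (b N : ℕ) (lam : ℝ),
  ∫ w in (0 : ℝ)..1, w ^ b * pp b N (lam * w) * pp b N w = - pp b N lam

/-- The same for `qq`. -/
def S_A5 : Prop := ∀ (b N : ℕ) (lam : ℝ), 0 ≤ lam →
  ∫ w in (0 : ℝ)..1, qq b N (lam * w) * qq b N w = - qq b N lam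

/-- `∫ q ^ 2 = -p(1) = -∑ c_l`, and `∑ c_l = -N (N + b)` (a difference of order `N - 1` of `x ↦ (N + b + x choose N)`). -/
def S_A3 : Prop := ∀ b N : ℕ, ∫ v in (0 : ℝ)..1, (qq b N v) ^ 2 = (N : ℝ) * (N + b)

/-- `∫ (1 - v) q ^ 2`. (With `1 + ∑_l c_l / (x + b + l + 1) = ∏_{s<N} (x - s) / ∏_{l<N} (x + b + l + 1)`, both sides times
the denominator being monic polynomials of degree `N` which vanish at `0, …, N - 1` by `S_A1`: the integral is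
`-c_{N-1} (1 + ∑_l c_l / (N + b + l + 1))`.) -/
def S_A4 : Prop := ∀ b N : ℕ,
  ∫ v in (0 : ℝ)..1, (1 - v) * (qq b N v) ^ 2 = (N : ℝ) * (N + b) / (2 * N + b)

/-! ### Part B : one-dimensional calculus -/

/-- For smooth `Φ` which vanishes on the right, with `HH` of `Pool.Agent.Y282.RB.A2` (`HH m Φ 0 = Φ`,
`HH m Φ (j + 1) t = (m - j) HH m Φ j t + t (HH m Φ j)' t`). Induction on `n` for fixed `m`: write `g_j` for the `j`-th
derivative of `Φ` and `J_l(t) = t ^ l ∫_t^∞ u ^ (j - l) g_{j+1}(u) du`; then `g_j = -J_j / t ^ j`, and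
`t ^ l ∫_t^∞ u ^ (j - 1 - l) g_j = (J_j - J_l) / (j - l)` by parts, so the coefficients for `j + 1` are
`c'_l = -c_l (m - j + l) / (j - l)` for `l < j` and `c'_j = -m (1 - ∑_{l<j} c_l / (j - l))`, which is
`-(j + 1) (m + j choose j + 1)` by `∑_{l ≤ j} (-1)^(j-l) (j choose l) (m + l choose j) = 1`. -/
def S_B : Prop := ∀ m n : ℕ, n ≤ m → ∀ Φ : ℝ → ℂ, ContDiff ℝ (⊤ : ℕ∞) Φ →
  (∃ R : ℝ, ∀ x, R ≤ x → Φ x = 0) → ∀ t : ℝ,
  Pool.Agent.Y282.RB.A2.HH m Φ n t = (t : ℂ) ^ n * iteratedDeriv n Φ t +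
    ∑ l ∈ Finset.range n, ((cc (m - n) n l : ℝ) : ℂ) * (t : ℂ) ^ l *
      ∫ u in Ioi t, (u : ℂ) ^ (n - 1 - l) * iteratedDeriv n Φ u

/-! ### Part C : the multiplier -/

/-- the functions of angular frequency `k` -/
def Cls (k : ℤ) (f : ℂ → ℂ) : Prop := ∀ a z : ℂ, ‖a‖ = 1 → f (a * z) = a ^ k * f z

/-- pairing (Fubini on the Fourier side, the symbol is even) -/
def S_C1 : Prop := ∀ (n : ℕ) (f h : 𝓢(ℂ, ℂ)), ∫ z : ℂ, Tn n f z * h z = ∫ z : ℂ, f z * Tn n h z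

/-- the class of `T ^ n f` -/
def S_C2 : Prop := ∀ (n : ℕ) (k : ℤ) (f : 𝓢(ℂ, ℂ)), Cls k f → Cls (k - 2 * n) (Tn n f)

/-- reflection: on the class `k` the operator `T ^ k` is `f ↦ f ∘ conj` -/
def S_C3 : Prop := ∀ (n k : ℕ), k ≤ n → ∀ f g : 𝓢(ℂ, ℂ), Cls (k : ℤ) f →
  (∀ z, g z = f (starRingEnd ℂ z)) → ∀ z, Tn n f z = Tn (n - k) g z

/-! ### Part E : the isometry for one kernel -/

/-- `h + ∫_0^1 q(v) h(√v z) dv` -/
noncomputable def AA (q : ℝ → ℝ) (h : ℂ → ℂ) (z : ℂ) : ℂ :=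
  h z + ∫ v in (0 : ℝ)..1, (q v : ℂ) * h ((Real.sqrt v : ℂ) * z)

/-- measurable and bounded -/
def BM (f : ℂ → ℂ) : Prop := Measurable f ∧ ∃ C : ℝ, ∀ z, ‖f z‖ ≤ C

/-- The kernel identity implies that `AA q` does not increase the norm of `L²` (it is an isometry). If `h ∈ L²`, put
`K h z = ∫_0^1 q(v) h(√v z) dv` and `C(λ) = ∫ h(√λ z) conj(h z)` for `0 < λ < 1`; Fubini (the norm of `h(√v ·)` is
`v ^ (-1/2) ‖h‖`) gives `∫ |K h|² = ∫∫ q(v) q(w) ⟨h(√v ·), h(√w ·)⟩`; for `v < w` the inner product is `C(v / w) / w`;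
substitute `v = λ w`: this half is `∫_0^1 C(λ) (∫_0^1 q(λ w) q(w) dw) dλ = -∫ C(λ) q(λ) dλ = -⟨K h, h⟩`, the other half is
its conjugate, so `‖h + K h‖² = ‖h‖²`. -/
def S_E : Prop := ∀ q : ℝ → ℝ, Continuous q →
  (∀ lam : ℝ, 0 < lam → lam < 1 → ∫ w in (0 : ℝ)..1, q (lam * w) * q w = - q lam) →
  ∀ h : ℂ → ℂ, BM h → ∫⁻ z : ℂ, ‖AA q h z‖ₑ ^ 2 ≤ ∫⁻ z : ℂ, ‖h z‖ₑ ^ 2

/-! ### Part F : several frequencies -/

/-- average over the rotations of order `m`: the projection on the frequencies `≡ k (mod m)` -/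
noncomputable def pr (m : ℕ) (k : ℤ) (f : ℂ → ℂ) (z : ℂ) : ℂ :=
  (1 / (m : ℂ)) * ∑ j ∈ Finset.range m,
    Complex.exp (-(2 * (Real.pi : ℂ) * Complex.I * (j * k / m))) *
      f (Complex.exp (2 * (Real.pi : ℂ) * Complex.I * (j / m)) * z)

/-- the operator with the kernel `Q k` on the frequencies `≡ k (mod m)`, `k ∈ S` -/
noncomputable def AS (m : ℕ) (S : Finset ℤ) (Q : ℤ → ℝ → ℝ) (f : ℂ → ℂ) (z : ℂ) : ℂ :=
  f z + ∑ k ∈ S, ∫ v in (0 : ℝ)..1, (Q k v : ℂ) * pr m k f ((Real.sqrt v : ℂ) * z)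

/-- A linear operator on bounded measurable functions, with norm at most one in `L²`, at most `M` for bounded functions,
and continuous for bounded pointwise convergence. -/
structure Op (A : (ℂ → ℂ) → ℂ → ℂ) (M : ℝ) : Prop where
  add : ∀ f g, BM f → BM g → A (fun z => f z + g z) = fun z => A f z + A g z
  smul : ∀ (c : ℂ) f, BM f → A (fun z => c * f z) = fun z => c * A f z
  meas : ∀ f, BM f → Measurable (A f)
  l2 : ∀ f, BM f → ∫⁻ z : ℂ, ‖A f z‖ₑ ^ 2 ≤ ∫⁻ z : ℂ, ‖f z‖ₑ ^ 2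
  linf : ∀ f, Measurable f → ∀ B : ℝ, (∀ z, ‖f z‖ ≤ B) → ∀ z, ‖A f z‖ ≤ M * B
  cont : ∀ (F : ℕ → ℂ → ℂ) (f : ℂ → ℂ) (C : ℝ), (∀ i, Measurable (F i)) → Measurable f → (∀ i z, ‖F i z‖ ≤ C) →
    (∀ z, Tendsto (fun i => F i z) atTop (𝓝 (f z))) → ∀ z, Tendsto (fun i => A (F i) z) atTop (𝓝 (A f z))

/-- The part of `L²`: `∑_{c < m} |pr m c f|²` is the average of `|f|²` over the rotations, `pr m c (AS f)` is `AA (Q k)`
of `pr m c f` if `c ≡ k (mod m)` with `k ∈ S` (at most one `k`) and `pr m c f` otherwise; use `S_E` for each `c`. -/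
def S_F1 : Prop := S_E → ∀ (m : ℕ) (S : Finset ℤ) (Q : ℤ → ℝ → ℝ), 1 ≤ m →
  (∀ k ∈ S, ∀ l ∈ S, (m : ℤ) ∣ k - l → k = l) → (∀ k ∈ S, Continuous (Q k)) →
  (∀ k ∈ S, ∀ lam : ℝ, 0 < lam → lam < 1 → ∫ w in (0 : ℝ)..1, Q k (lam * w) * Q k w = - Q k lam) →
  ∀ f : ℂ → ℂ, BM f → ∫⁻ z : ℂ, ‖AS m S Q f z‖ₑ ^ 2 ≤ ∫⁻ z : ℂ, ‖f z‖ₑ ^ 2

/-- The part of bounded functions: `(1/m) ∑_j |∑_k Q k v e(-jk/m)| ≤ √(∑_k (Q k v)²)` by Cauchy-Schwarz and orthogonality. -/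
def S_F2 : Prop := ∀ (m : ℕ) (S : Finset ℤ) (Q : ℤ → ℝ → ℝ) (V : ℝ), 1 ≤ m →
  (∀ k ∈ S, ∀ l ∈ S, (m : ℤ) ∣ k - l → k = l) → (∀ k ∈ S, Continuous (Q k)) →
  ∫ v in (0 : ℝ)..1, Real.sqrt (∑ k ∈ S, (Q k v) ^ 2) ≤ V →
  ∀ f : ℂ → ℂ, Measurable f → ∀ B : ℝ, (∀ z, ‖f z‖ ≤ B) → ∀ z, ‖AS m S Q f z‖ ≤ (1 + V) * B

/-- The remaining properties of `Op`. -/
def S_F3 : Prop := ∀ (m : ℕ) (S : Finset ℤ) (Q : ℤ → ℝ → ℝ), (∀ k ∈ S, Continuous (Q k)) →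
  (∀ f g, BM f → BM g → AS m S Q (fun z => f z + g z) = fun z => AS m S Q f z + AS m S Q g z) ∧
  (∀ (c : ℂ) f, BM f → AS m S Q (fun z => c * f z) = fun z => c * AS m S Q f z) ∧
  (∀ f, BM f → Measurable (AS m S Q f)) ∧
  (∀ (F : ℕ → ℂ → ℂ) (f : ℂ → ℂ) (C : ℝ), (∀ i, Measurable (F i)) → Measurable f → (∀ i z, ‖F i z‖ ≤ C) →
    (∀ z, Tendsto (fun i => F i z) atTop (𝓝 (f z))) →
    ∀ z, Tendsto (fun i => AS m S Q (F i) z) atTop (𝓝 (AS m S Q f z)))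

/-! ### Part G : interpolation -/

/-- Riesz-Thorin between `L²` and bounded functions. (Simple functions `f = ∑ a_i 1_{E_i}`, `g = ∑ b_j 1_{F_j}` with
disjoint sets of finite measure and the finite exponential sum `∑ |a_i|^α(ζ) sgn a_i |b_j|^β(ζ) sgn b_j ∫_{F_j} A 1_{E_i}`,
Hadamard's three lines theorem of Mathlib; duality with `g = |A f|^(p-2) conj (A f)` approximated by simple functions;
then `f` bounded and zero outside a ball by simple functions and `cont` with Fatou; then truncate.) -/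
def S_G : Prop := ∀ (A : (ℂ → ℂ) → ℂ → ℂ) (M : ℝ), 1 ≤ M → Op A M → ∀ p : ℝ, 2 ≤ p → ∀ f : ℂ → ℂ, BM f →
  eLpNorm (A f) (ENNReal.ofReal p) (volume : Measure ℂ) ≤
    ENNReal.ofReal (M ^ (1 - 2 / p)) * eLpNorm f (ENNReal.ofReal p) (volume : Measure ℂ)

/-! ### Part H : numerical inequalities -/

/-- the kernel of the frequency `k ≤ n` -/
noncomputable def QQ (n : ℕ) (k : ℤ) : ℝ → ℝ := qq k.natAbs (n - k.toNat)

/-- `(n - k) (4 n - k) / (4 n - 2 k)` -/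
noncomputable def wt (n : ℕ) (k : ℤ) : ℝ := ((n : ℝ) - k) * (4 * n - k) / (4 * n - 2 * k)

/-- Cauchy-Schwarz with the weight `1 + 2 n (1 - v)`; the integrals of `q²` and `(1 - v) q²` are `n (n - k)` and
`n (n - k) / (2 n - k)`. -/
def S_H1 : Prop := S_A3 → S_A4 → ∀ (n : ℕ) (S : Finset ℤ), 1 ≤ n → (∀ k ∈ S, k ≤ n) →
  ∫ v in (0 : ℝ)..1, Real.sqrt (∑ k ∈ S, (QQ n k v) ^ 2) ≤ Real.sqrt (Real.log (2 * n + 1) * ∑ k ∈ S, wt n k)

/-- `wt n k + wt n (-k) ≤ 2 n` -/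
def S_H2 : Prop := ∀ n D : ℕ, 1 ≤ n → D ≤ n →
  ∑ k ∈ Finset.Icc (-(D : ℤ)) D, wt n k ≤ (2 * D + 1) * n

/-- `e^(2 ∑ 1 / (2 j + 1))` -/
noncomputable def eO (n : ℕ) : ℝ := Real.exp (2 * ∑ j ∈ Finset.range n, 1 / (2 * (j : ℝ) + 1))

/-- Each factor of `Cn p n` is `(2 j + 1 + u) / (2 j + 1 - u) ≥ exp (2 u / (2 j + 1))`, `u = 1 - 2 / p`. -/
def S_H3 : Prop := ∀ (n : ℕ) (p M : ℝ), 2 ≤ p → 1 ≤ M → M ≤ eO n →
  M ^ (1 - 2 / p) ≤ Pool.Agent.Y282.RB.Cn p n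

/-- For `n ≥ 2`: `eO n ≥ (e^(8/3) / 5) (2 n + 1)`, since `e^(2/(2n+1)) (2n+1) ≥ 2n+3`. -/
def S_H4 : Prop := ∀ n D : ℕ, 1 ≤ n → D ≤ n → (2 * (D : ℝ) + 1) * Real.log (2 * n + 1) ≤ 33 * n →
  1 + Real.sqrt ((2 * (D : ℝ) + 1) * n * Real.log (2 * n + 1)) ≤ eO n

/-- `p - 1 = (1 + u) / (1 - u) ≥ e^(2 u)`, `u = 1 - 2 / p`, and `7.389 < e²`. -/
def S_H5 : Prop := ∀ (n D : ℕ) (p : ℝ), 1 ≤ n → D ≤ n → 2 ≤ p →
  (2 * (D : ℝ) + 1) * Real.log (2 * n + 1) ≤ 54 * n - 14 →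
  (1 + Real.sqrt ((2 * (D : ℝ) + 1) * n * Real.log (2 * n + 1))) ^ (1 - 2 / p) ≤ (n : ℝ) ^ (1 - 2 / p) * (p - 1)

/-! ### Part D : the formula -/

/-- the formula for frequencies `-b ≤ 0` -/
def S_D : Prop := ∀ (n b : ℕ) (f : 𝓢(ℂ, ℂ)), Cls (-(b : ℤ)) f → ∀ z : ℂ, z ≠ 0 →
  Tn n f z = (starRingEnd ℂ z / z) ^ n * AA (qq b n) f z

/-- the formula for all frequencies `k ≤ n` -/
def S_D2 : Prop := ∀ (n : ℕ) (k : ℤ), k ≤ n → ∀ f : 𝓢(ℂ, ℂ), Cls k f → ∀ z : ℂ, z ≠ 0 →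
  Tn n f z = (starRingEnd ℂ z / z) ^ n * AA (QQ n k) f z

end Pool.Agent.Q276.BA
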