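import Pool.Agent.Q276.BA.Stm3

/-!
# Project BA (helper276), fourth part: single frequencies
-/

set_option autoImplicit false

open MeasureTheory Set Filter Topology
open scoped BigOperators ENNReal SchwartzMap

namespace Pool.Agent.Q276.BA

/-- With `c = N (N + b)`, `d = 2 N + b` the integral of `(1 - v)² q²` is `2 c² / (d (d² - 1))`. Write
`q² = v^b p ∑ c_i v^i` and `m_i = ∫ v^(b+i) p = ∑_l c_l / (b + i + l + 1)` (`Pool.Agent.Q190.BA.moment`), so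
`m_i = -1` for `i < N` (`a1`), `m_N = F_N - 1`, `m_{N+1} = F_{N+1} - 1` with `F_x = ∏_{s<N} (x - s) / ∏_{l<N} (x + b + l + 1)`
(`Pool.Agent.Q190.BA.rat`). The integral is `∑_i c_i (m_i - 2 m_{i+1} + m_{i+2}) = c_{N-2} F_N + c_{N-1} (F_{N+1} - 2 F_N)`
(for `N = 1` only the second term). -/
def S_J : Prop := ∀ b N : ℕ, 1 ≤ N →
  ∫ v in (0 : ℝ)..1, (1 - v) ^ 2 * (qq b N v) ^ 2 =
    2 * ((N : ℝ) * (N + b)) ^ 2 / ((2 * N + b) * ((2 * N + b) ^ 2 - 1))

end Pool.Agent.Q276.BA
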