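import Pool.Agent.Q276.BA.Single

/-! Project BA: the bound for the supremum -/

set_option autoImplicit false

open MeasureTheory Set Filter Topology
open scoped BigOperators ENNReal SchwartzMap ContDiff FourierTransform

namespace Pool.Agent.Q276.BA.Sup

open Pool.Agent.Y282.RB (Tn Cn)

lemma sup0 (n : ℕ) (S : Finset ℤ) (hn : ∀ k ∈ S, k ≤ n) (f : ℤ → 𝓢(ℂ, ℂ))
    (hf : ∀ k ∈ S, Cls k (f k)) (V : ℝ)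
    (hV : ∫ v in (0 : ℝ)..1, Real.sqrt (∑ k ∈ S, (QQ n k v) ^ 2) ≤ V) (B : ℝ)
    (hB : ∀ z, ‖(∑ k ∈ S, f k : 𝓢(ℂ, ℂ)) z‖ ≤ B) (z : ℂ) :
    ‖Tn n ((∑ k ∈ S, f k : 𝓢(ℂ, ℂ)) : ℂ → ℂ) z‖ ≤ (1 + V) * B := by
  obtain ⟨m, hm, hS⟩ := Fin.exists_mod S
  have hop := Fin.op Pool.Agent.Q121.BA.E.e Pool.Agent.Q182.BA.f1 n m hm S hS V hV
  have h1 : ∀ z : ℂ, z ≠ 0 → ‖Tn n ((∑ k ∈ S, f k : 𝓢(ℂ, ℂ)) : ℂ → ℂ) z‖ ≤ (1 + V) * B := by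
    intro z hz
    rw [Fin.formula n m hm S hS hn f hf z hz, norm_mul, norm_pow, D5.norm_conj_div hz, one_pow, one_mul]
    exact hop.linf _ (SchwartzMap.continuous _).measurable B hB z
  have h2 : IsClosed {z : ℂ | ‖Tn n ((∑ k ∈ S, f k : 𝓢(ℂ, ℂ)) : ℂ → ℂ) z‖ ≤ (1 + V) * B} :=
    isClosed_le (D3.cont_Tn n _).norm continuous_const
  have h3 : Dense ({0}ᶜ : Set ℂ) := dense_compl_singleton 0
  have h4 : closure ({0}ᶜ : Set ℂ) ⊆ {z : ℂ | ‖Tn n ((∑ k ∈ S, f k : 𝓢(ℂ, ℂ)) : ℂ → ℂ) z‖ ≤ (1 + V) * B} :=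
    h2.closure_subset_iff.2 fun w hw => h1 w hw
  exact h4 (h3 z)

theorem sup (n : ℕ) (S : Finset ℤ) (hn : ∀ k ∈ S, k ≤ n) (V : ℝ)
    (hV : ∫ v in (0 : ℝ)..1, Real.sqrt (∑ k ∈ S, (QQ n k v) ^ 2) ≤ V) (f : 𝓢(ℂ, ℂ)) (hf : Main.Freq S f) (B : ℝ)
    (hB : ∀ z, ‖f z‖ ≤ B) (z : ℂ) : ‖Tn n f z‖ ≤ (1 + V) * B := by
  obtain ⟨c, g, rfl, hg⟩ := hf
  have e1 : (∑ k ∈ S, g k : 𝓢(ℂ, ℂ)) = Trans.tr c (∑ k ∈ S, Trans.tr (-c) (g k) : 𝓢(ℂ, ℂ)) := by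
    ext z
    rw [Trans.tr_apply, Fin.coe_sum, Fin.coe_sum]
    refine Finset.sum_congr rfl fun k _ => ?_
    rw [Trans.tr_apply]
    congr 1
    ring
  have hB' : ∀ z, ‖(∑ k ∈ S, Trans.tr (-c) (g k) : 𝓢(ℂ, ℂ)) z‖ ≤ B := by
    intro w
    have h1 := hB (w + c)
    rw [e1, Trans.tr_apply, add_sub_cancel_right] at h1
    exact h1
  have h1 := sup0 n S hn (fun k => Trans.tr (-c) (g k)) (fun k hk a z ha => by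
    rw [Trans.tr_apply, Trans.tr_apply, sub_neg_eq_add, sub_neg_eq_add, add_comm, hg k hk a z ha, add_comm c z])
    V hV B hB' (z - c)
  rw [e1, Trans.Tn_tr]
  exact h1

end Pool.Agent.Q276.BA.Sup
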