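import Pool.Agent.Q276.BA.Fin

/-! Project BA: translations -/

set_option autoImplicit false

open MeasureTheory Set Filter Topology
open scoped BigOperators ENNReal SchwartzMap ContDiff FourierTransform

namespace Pool.Agent.Q276.BA.Trans

open Pool.Agent.Y282.RB (Tn)

/-- translation -/
noncomputable def tr (a : ℂ) (f : 𝓢(ℂ, ℂ)) : 𝓢(ℂ, ℂ) := SchwartzMap.compSubConstCLM ℝ a f

lemma tr_apply (a : ℂ) (f : 𝓢(ℂ, ℂ)) (z : ℂ) : tr a f z = f (z - a) := rfl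

lemma Tn_tr (n : ℕ) (a : ℂ) (f : 𝓢(ℂ, ℂ)) (z : ℂ) : Tn n (tr a f) z = Tn n f (z - a) := by
  unfold Tn
  refine integral_congr_ae (Eventually.of_forall fun ξ => ?_)
  simp only
  have h1 : ∫ x : ℂ, Complex.exp (-(2 * (Real.pi : ℂ) * Complex.I *
      (((x.re * ξ.re + x.im * ξ.im : ℝ)) : ℂ))) * tr a f x =
      Complex.exp (-(2 * (Real.pi : ℂ) * Complex.I * (((a.re * ξ.re + a.im * ξ.im : ℝ)) : ℂ))) *
      ∫ x : ℂ, Complex.exp (-(2 * (Real.pi : ℂ) * Complex.I *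
      (((x.re * ξ.re + x.im * ξ.im : ℝ)) : ℂ))) * f x := by
    have h2 := integral_sub_right_eq_self (μ := (volume : Measure ℂ)) (fun y : ℂ =>
      Complex.exp (-(2 * (Real.pi : ℂ) * Complex.I * (((a.re * ξ.re + a.im * ξ.im : ℝ)) : ℂ))) *
      (Complex.exp (-(2 * (Real.pi : ℂ) * Complex.I *
      (((y.re * ξ.re + y.im * ξ.im : ℝ)) : ℂ))) * f y)) a
    rw [← integral_const_mul, ← h2]
    refine integral_congr_ae (Eventually.of_forall fun x => ?_)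
    simp only
    rw [← mul_assoc, ← Complex.exp_add, tr_apply, Complex.sub_re, Complex.sub_im]
    congr 2
    push_cast
    ring
  rw [h1, ← mul_assoc, ← mul_assoc, ← mul_assoc]
  congr 1
  rw [mul_right_comm, ← Complex.exp_add]
  congr 2
  rw [Complex.sub_re, Complex.sub_im]
  push_cast
  ring

lemma eLp_shift (F : ℂ → ℂ) (hF : Continuous F) (a : ℂ) (q : ℝ≥0∞) :
    eLpNorm (fun z => F (z - a)) q (volume : Measure ℂ) = eLpNorm F q (volume : Measure ℂ) :=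
  eLpNorm_comp_measurePreserving (g := F) hF.aestronglyMeasurable (measurePreserving_sub_right volume a)

/-- The main inequality, with frequencies about any point. -/
theorem main (hE : S_E) (hF1 : S_F1) (n : ℕ) (S : Finset ℤ) (hn : ∀ k ∈ S, k ≤ n) (c : ℂ)
    (f : ℤ → 𝓢(ℂ, ℂ)) (hf : ∀ k ∈ S, ∀ a z : ℂ, ‖a‖ = 1 → f k (c + a * z) = a ^ k * f k (c + z)) (V : ℝ)
    (hV : ∫ v in (0 : ℝ)..1, Real.sqrt (∑ k ∈ S, (QQ n k v) ^ 2) ≤ V) (p : ℝ) (hp : 2 ≤ p) :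
    eLpNorm (Tn n ((∑ k ∈ S, f k : 𝓢(ℂ, ℂ)) : ℂ → ℂ)) (ENNReal.ofReal p) (volume : Measure ℂ) ≤
      ENNReal.ofReal ((1 + V) ^ (1 - 2 / p)) *
        eLpNorm ((∑ k ∈ S, f k : 𝓢(ℂ, ℂ)) : ℂ → ℂ) (ENNReal.ofReal p) (volume : Measure ℂ) := by
  have h1 := Fin.main hE hF1 n S hn (fun k => tr (-c) (f k)) (fun k hk a z ha => by
    rw [tr_apply, tr_apply, sub_neg_eq_add, sub_neg_eq_add, add_comm, hf k hk a z ha, add_comm c z]) V hV p hp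
  have e1 : (∑ k ∈ S, f k : 𝓢(ℂ, ℂ)) = tr c (∑ k ∈ S, tr (-c) (f k) : 𝓢(ℂ, ℂ)) := by
    ext z
    rw [tr_apply, Fin.coe_sum, Fin.coe_sum]
    refine Finset.sum_congr rfl fun k _ => ?_
    rw [tr_apply]
    congr 1
    ring
  rw [e1]
  have e2 : Tn n (tr c (∑ k ∈ S, tr (-c) (f k) : 𝓢(ℂ, ℂ)) : ℂ → ℂ) =
      fun z => Tn n ((∑ k ∈ S, tr (-c) (f k) : 𝓢(ℂ, ℂ)) : ℂ → ℂ) (z - c) := funext fun z => Tn_tr n c _ z
  have e3 : (tr c (∑ k ∈ S, tr (-c) (f k) : 𝓢(ℂ, ℂ)) : ℂ → ℂ) =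
      fun z => ((∑ k ∈ S, tr (-c) (f k) : 𝓢(ℂ, ℂ)) : ℂ → ℂ) (z - c) := rfl
  rw [e2, e3, eLp_shift _ (D3.cont_Tn n _), eLp_shift _ (SchwartzMap.continuous _)]
  exact h1

end Pool.Agent.Q276.BA.Trans
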